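import Mathlib

/-! Definitions for the statements on smooth renormings. -/

set_option autoImplicit false

namespace Pool.Agent.Helper15.SR

open Filter
open scoped ENNReal

/-- `N` is an equivalent norm on `X` which is `n` times continuously differentiable off the
origin. -/
def SmoothNorm {X : Type*} [NormedAddCommGroup X] [NormedSpace ℝ X] (n : WithTop ℕ∞) (N : X → ℝ) :
    Prop :=
  (∀ x y : X, N (x + y) ≤ N x + N y) ∧ (∀ (t : ℝ) (x : X), N (t • x) = |t| * N x) ∧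
    (∃ c C : ℝ, 0 < c ∧ ∀ x : X, c * ‖x‖ ≤ N x ∧ N x ≤ C * ‖x‖) ∧
    ContDiffOn ℝ n N {x : X | x ≠ 0}

/-- `M` is an equivalent norm on `X`, of class `C^∞` off the origin, and `M ^ q` is a continuous
`q`-homogeneous polynomial: `M x ^ q = L (x, ..., x)` with `L` a bounded `q`-linear form. -/
def PolyNorm {X : Type*} [NormedAddCommGroup X] [NormedSpace ℝ X] (q : ℕ) (M : X → ℝ) : Prop :=
  SmoothNorm ((⊤ : ℕ∞) : WithTop ℕ∞) M ∧
    ∃ L : ContinuousMultilinearMap ℝ (fun _ : Fin q => X) ℝ, ∀ x : X, M x ^ q = L (fun _ => x)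

/-- `X` has an equivalent norm of class `C^n`. -/
def HasSmoothNorm (X : Type*) [NormedAddCommGroup X] [NormedSpace ℝ X] (n : WithTop ℕ∞) : Prop :=
  ∃ N : X → ℝ, SmoothNorm n N

/-- `X` has an equivalent `C^∞` norm whose `q`-th power is a polynomial. -/
def HasPolyNorm (X : Type*) [NormedAddCommGroup X] [NormedSpace ℝ X] (q : ℕ) : Prop :=
  ∃ M : X → ℝ, PolyNorm q M

/-- `X` embeds isomorphically into `Y`. -/
def EmbedsInto (X Y : Type*) [NormedAddCommGroup X] [NormedSpace ℝ X] [NormedAddCommGroup Y]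
    [NormedSpace ℝ Y] : Prop :=
  ∃ (T : X →L[ℝ] Y) (κ : ℝ), 0 < κ ∧ ∀ x, κ * ‖x‖ ≤ ‖T x‖

section

variable {E : ℕ → Type*} [∀ n, NormedAddCommGroup (E n)]

/-- with constants `c > 0` and `C`, for all large `n`: `c ‖v‖ ^ q ≤ P n v ≤ C ‖v‖ ^ q` -/
def UnifCoercive (q : ℕ) (P : ∀ n, E n → ℝ) : Prop :=
  ∃ c C : ℝ, 0 < c ∧ ∀ᶠ n in atTop, ∀ v : E n, c * ‖v‖ ^ q ≤ P n v ∧ P n v ≤ C * ‖v‖ ^ q

variable [∀ n, NormedSpace ℝ (E n)]

/-- for every `ε > 0`, for all large `n`, `P n` is convex up to `ε` on the unit ball of `E n` -/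
def AsympConvex (P : ∀ n, E n → ℝ) : Prop :=
  ∀ ε > 0, ∀ᶠ n in atTop, ∀ s : ℝ, 0 ≤ s → s ≤ 1 → ∀ v w : E n, ‖v‖ ≤ 1 → ‖w‖ ≤ 1 →
    P n (s • v + (1 - s) • w) ≤ s * P n v + (1 - s) * P n w + ε

/-- with fixed constants, every finite-dimensional subspace of a space of the sequence embeds into
infinitely many spaces of the sequence -/
def RecurrentBlocks (E : ℕ → Type*) [∀ n, NormedAddCommGroup (E n)] [∀ n, NormedSpace ℝ (E n)] :
    Prop :=
  ∃ κ K : ℝ, 0 < κ ∧ ∀ i (G : Submodule ℝ (E i)), FiniteDimensional ℝ G →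
    ∃ᶠ j in atTop, ∃ J : G →L[ℝ] E j, ∀ v, κ * ‖v‖ ≤ ‖J v‖ ∧ ‖J v‖ ≤ K * ‖v‖

/-- the polynomial `v ↦ D^q N(x₀)(v, ..., v) / q!` on the `n`-th block of an `ℓ_p`-sum -/
noncomputable def blockPoly {p : ℝ≥0∞} [Fact (1 ≤ p)] (N : lp E p → ℝ) (x₀ : lp E p) (q n : ℕ)
    (v : E n) : ℝ :=
  ((q.factorial : ℝ)⁻¹) * iteratedFDeriv ℝ q N x₀ (fun _ => lp.single p n v)

end

end Pool.Agent.Helper15.SR
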