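import Mathlib

/-! A one-coordinate-at-a-time greedy construction in an `ℓ_p`-sum: an asymptotic lower
`p`-estimate for a norm at a suitable point. -/

set_option autoImplicit false

namespace Pool.Agent.Helper15.SR

open Set Filter Topology
open scoped ENNReal

variable {E : ℕ → Type*} [∀ n, NormedAddCommGroup (E n)] [∀ n, NormedSpace ℝ (E n)]
  {p : ℝ≥0∞}

/-- the greedy step -/
theorem greedy_step (hp : 0 < p.toReal) (N : lp E p → ℝ) (c : ℝ) (n : ℕ) (x : lp E p) :
    ∃ v : E n, ‖v‖ ≤ 1 / 2 ∧ N (x + lp.single p n v) ≤ N x + c * ‖v‖ ^ p.toReal ∧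
      ∀ w : E n, ‖w‖ ≤ 1 / 2 → N (x + lp.single p n w) ≤ N x + c * ‖w‖ ^ p.toReal →
        ‖w‖ ≤ 2 * ‖v‖ := by
  set A : Set ℝ := {r | ∃ w : E n, ‖w‖ = r ∧ ‖w‖ ≤ 1 / 2 ∧
    N (x + lp.single p n w) ≤ N x + c * ‖w‖ ^ p.toReal} with hA
  have h0 : (0 : ℝ) ∈ A := by
    refine ⟨0, norm_zero, by simp, ?_⟩
    simp [Real.zero_rpow hp.ne']
  have hbdd : BddAbove A := ⟨1 / 2, by rintro r ⟨w, rfl, hw, -⟩; exact hw⟩
  rcases (le_csSup hbdd h0).eq_or_lt with h | h
  · refine ⟨0, by simp, by simp [Real.zero_rpow hp.ne'], fun w hw1 hw2 => ?_⟩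
    have : ‖w‖ ≤ sSup A := le_csSup hbdd ⟨w, rfl, hw1, hw2⟩
    rw [← h] at this
    simpa using this
  · obtain ⟨r, ⟨v, rfl, hv1, hv2⟩, hr⟩ := exists_lt_of_lt_csSup ⟨0, h0⟩ (half_lt_self h)
    refine ⟨v, hv1, hv2, fun w hw1 hw2 => ?_⟩
    have : ‖w‖ ≤ sSup A := le_csSup hbdd ⟨w, rfl, hw1, hw2⟩
    linarith

/-- Asymptotic lower `p`-estimate for an equivalent norm on an `ℓ_p`-sum. -/
theorem greedy [Fact (1 ≤ p)] (hp : p ≠ ∞) (N : lp E p → ℝ)
    (hadd : ∀ x y, N (x + y) ≤ N x + N y) (hsmul : ∀ (t : ℝ) (x : lp E p), N (t • x) = |t| * N x)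
    {a b : ℝ} (ha : 0 < a) (hNa : ∀ x, a * ‖x‖ ≤ N x) (hNb : ∀ x, N x ≤ b * ‖x‖)
    (i₀ : ℕ) (u₀ : E i₀) (hu₀ : u₀ ≠ 0) :
    ∃ x₀ : lp E p, x₀ ≠ 0 ∧ ∃ c > 0, ∀ δ > 0, ∀ ε > 0, ∃ n₀ : ℕ, ∀ n ≥ n₀, ∀ v : E n,
      δ ≤ ‖v‖ → ‖v‖ ≤ 1 / 2 → N x₀ + c * ‖v‖ ^ p.toReal - ε ≤ N (x₀ + lp.single p n v) := by
  classical
  have hp1 : 1 ≤ p.toReal := by
    have h1 : (1 : ℝ≥0∞) ≤ p := Fact.out
    have := ENNReal.toReal_mono hp h1
    simpa using this
  have hp0 : 0 < p.toReal := by linarith
  have hp0' : 0 < p := zero_lt_one.trans_le Fact.out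
  set c : ℝ := a / 4 with hc
  have hcpos : 0 < c := by positivity
  -- scale `u₀`
  obtain ⟨w, hw0, hwN⟩ : ∃ w : ∀ n, E n, w i₀ ≠ 0 ∧ N (lp.single p i₀ (w i₀)) ≤ a / 8 := by
    set M := N (lp.single p i₀ u₀) with hM
    have hMpos : 0 < M := by
      refine lt_of_lt_of_le ?_ (hNa _)
      rw [lp.norm_single hp0']
      have := norm_pos_iff.2 hu₀
      positivity
    refine ⟨Pi.single i₀ ((a / (8 * M)) • u₀), ?_, ?_⟩
    · rw [Pi.single_eq_same]
      have : a / (8 * M) ≠ 0 := by positivity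
      exact smul_ne_zero this hu₀
    · rw [Pi.single_eq_same, lp.single_smul, hsmul, ← hM, abs_of_pos (by positivity)]
      field_simp
      exact le_refl _
  choose V hV1 hV2 hV3 using fun n x => greedy_step hp0 N c n x
  set W : ∀ n, lp E p → E n := fun n x => if n = i₀ then w n else V n x with hW
  let x : ℕ → lp E p := fun n => Nat.rec 0 (fun n y => y + lp.single p n (W n y)) n
  have hx0 : x 0 = 0 := rfl
  have hxs : ∀ n, x (n + 1) = x n + lp.single p n (W n (x n)) := fun n => rfl
  set f : ∀ n, E n := fun n => W n (x n) with hf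
  have hxsum : ∀ n, x n = ∑ i ∈ Finset.range n, lp.single p i (f i) := by
    intro n
    induction n with
    | zero => simp [hx0]
    | succ n ih => rw [hxs, Finset.sum_range_succ, ← ih]
  have hxapply : ∀ n m, m < n → x n m = f m := by
    intro n m hmn
    rw [hxsum, lp.coeFn_sum, Finset.sum_apply, Finset.sum_eq_single m]
    · exact lp.single_apply_self _ _ _
    · intro j _ hj
      exact lp.single_apply_ne _ _ _ hj.symm
    · intro h
      exact absurd (Finset.mem_range.2 hmn) h
  have hfi : f i₀ = w i₀ := by simp [hf, hW]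
  have hfn : ∀ n, n ≠ i₀ → f n = V n (x n) := by
    intro n hn
    simp [hf, hW, hn]
  -- the sums
  set T : ℕ → ℝ := fun n => ∑ i ∈ Finset.range n, if i = i₀ then 0 else ‖f i‖ ^ p.toReal with hT
  have hTs : ∀ n, T (n + 1) = T n + if n = i₀ then 0 else ‖f n‖ ^ p.toReal := fun n =>
    Finset.sum_range_succ _ _
  have hT0 : ∀ n, 0 ≤ T n := fun n => Finset.sum_nonneg fun i _ => by
    split_ifs
    · exact le_rfl
    · positivity
  have hNx : ∀ n, N (x n) ≤ (if n ≤ i₀ then 0 else a / 8) + c * T n := by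
    intro n
    induction n with
    | zero =>
      have h1 := hNb 0
      rw [norm_zero, mul_zero] at h1
      simpa [hx0, hT] using h1
    | succ n ih =>
      rw [hxs, hTs]
      by_cases hn : n = i₀
      · have h1 : W n (x n) = w n := by simp [hW, hn]
        have h2 : N (lp.single p n (w n)) ≤ a / 8 := by
          rw [hn]; exact hwN
        rw [h1]
        have h3 := hadd (x n) (lp.single p n (w n))
        have h4 : n ≤ i₀ := hn.le
        have h5 : ¬ (n + 1 ≤ i₀) := by omega
        rw [if_pos h4] at ih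
        rw [if_neg h5, if_pos hn]
        linarith
      · have h1 : W n (x n) = V n (x n) := by simp [hW, hn]
        rw [h1, if_neg hn, hfn n hn]
        have h2 := hV2 n (x n)
        have h3 : (if n ≤ i₀ then (0 : ℝ) else a / 8) ≤ (if n + 1 ≤ i₀ then 0 else a / 8) := by
          split_ifs
          · exact le_rfl
          · positivity
          · omega
          · exact le_rfl
        linarith
  have hTle : ∀ n, T n ≤ 1 / 6 := by
    have key : ∀ n, T n ≤ 1 → T n ≤ 1 / 6 := by
      intro n hn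
      have h1 : T n ≤ ‖x n‖ ^ p.toReal := by
        refine le_trans ?_ (lp.sum_rpow_le_norm_rpow hp0 (x n) (Finset.range n))
        refine Finset.sum_le_sum fun i hi => ?_
        rw [hxapply n i (Finset.mem_range.1 hi)]
        split_ifs
        · positivity
        · exact le_rfl
      have h2 : T n ≤ ‖x n‖ := by
        have h3 : T n ≤ (T n) ^ (1 / p.toReal) := by
          rcases (hT0 n).eq_or_lt with h | h
          · rw [← h, Real.zero_rpow (by positivity)]
          · have := Real.rpow_le_rpow_of_exponent_ge h hn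
              (show 1 / p.toReal ≤ 1 by rw [div_le_one hp0]; exact hp1)
            rwa [Real.rpow_one] at this
        have h4 : (T n) ^ (1 / p.toReal) ≤ (‖x n‖ ^ p.toReal) ^ (1 / p.toReal) :=
          Real.rpow_le_rpow (hT0 n) h1 (by positivity)
        rw [← Real.rpow_mul (norm_nonneg _), mul_one_div_cancel hp0.ne', Real.rpow_one] at h4
        linarith
      have h5 := hNx n
      have h6 := hNa (x n)
      have h7 : (if n ≤ i₀ then (0 : ℝ) else a / 8) ≤ a / 8 := by
        split_ifs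
        · positivity
        · exact le_rfl
      have h8 : a * T n ≤ a / 8 + a / 4 * T n := by
        calc a * T n ≤ a * ‖x n‖ := mul_le_mul_of_nonneg_left h2 ha.le
          _ ≤ N (x n) := h6
          _ ≤ _ := h5
          _ ≤ _ := by rw [hc]; linarith
      have h9 : a * (T n - 1 / 6) ≤ 0 := by linarith
      have h10 : T n - 1 / 6 ≤ 0 := by
        by_contra hcon
        push Not at hcon
        have := mul_pos ha hcon
        linarith
      linarith
    intro n
    induction n with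
    | zero => simp [hT]
    | succ n ih =>
      apply key
      rw [hTs]
      split_ifs with hn
      · linarith
      · have h1 : ‖f n‖ ≤ 1 / 2 := by rw [hfn n hn]; exact hV1 n (x n)
        have h2 : ‖f n‖ ^ p.toReal ≤ 1 / 2 := by
          calc ‖f n‖ ^ p.toReal ≤ ((1 : ℝ) / 2) ^ p.toReal :=
                Real.rpow_le_rpow (norm_nonneg _) h1 hp0.le
            _ ≤ ((1 : ℝ) / 2) ^ (1 : ℝ) :=
                Real.rpow_le_rpow_of_exponent_ge (by norm_num) (by norm_num) hp1
            _ = 1 / 2 := by rw [Real.rpow_one]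
        linarith
  -- summability
  have hfin : ∀ s : Finset ℕ, ∑ i ∈ s, ‖f i‖ ^ p.toReal ≤ 1 / 6 + ‖f i₀‖ ^ p.toReal := by
    intro s
    have h1 : ∑ i ∈ s, ‖f i‖ ^ p.toReal ≤
        ∑ i ∈ s, ((if i = i₀ then 0 else ‖f i‖ ^ p.toReal) +
          if i = i₀ then ‖f i‖ ^ p.toReal else 0) := by
      refine Finset.sum_le_sum fun i _ => ?_
      split_ifs <;> simp
    rw [Finset.sum_add_distrib] at h1
    have h2 : ∑ i ∈ s, (if i = i₀ then ‖f i‖ ^ p.toReal else 0) ≤ ‖f i₀‖ ^ p.toReal := by
      rw [Finset.sum_ite_eq']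
      split_ifs
      · exact le_rfl
      · positivity
    have h3 : ∑ i ∈ s, (if i = i₀ then (0 : ℝ) else ‖f i‖ ^ p.toReal) ≤ 1 / 6 := by
      refine le_trans ?_ (hTle (s.sup id + 1))
      refine Finset.sum_le_sum_of_subset_of_nonneg ?_ ?_
      · intro i hi
        rw [Finset.mem_range]
        have : i ≤ s.sup id := Finset.le_sup (f := id) hi
        omega
      · intro i _ _
        split_ifs
        · exact le_rfl
        · positivity
    linarith
  have hmem : Memℓp f p := memℓp_gen' hfin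
  have hsummable : Summable fun i => ‖f i‖ ^ p.toReal := hmem.summable hp0
  have hf0 : Tendsto (fun n => ‖f n‖) atTop (𝓝 0) := by
    have h1 := hsummable.tendsto_atTop_zero
    have h2 := h1.rpow_const (p := 1 / p.toReal) (Or.inr (by positivity))
    rw [Real.zero_rpow (by positivity)] at h2
    refine h2.congr fun n => ?_
    rw [← Real.rpow_mul (norm_nonneg _), mul_one_div_cancel hp0.ne', Real.rpow_one]
  set X₀ : lp E p := ⟨f, hmem⟩ with hX₀
  have hX₀f : ∀ n, X₀ n = f n := fun n => rfl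
  have htend : Tendsto x atTop (𝓝 X₀) := by
    have h1 := (lp.hasSum_single hp X₀).tendsto_sum_nat
    refine h1.congr fun n => ?_
    rw [hxsum]
  have hneg : ∀ y, N (-y) = N y := by
    intro y
    have := hsmul (-1) y
    simpa using this
  refine ⟨X₀, ?_, c, hcpos, ?_⟩
  · intro h
    apply hw0
    rw [← hfi, ← hX₀f, h]
    rfl
  · intro δ hδ ε hε
    have hb0 : Tendsto (fun n => b * ‖x n - X₀‖) atTop (𝓝 0) := by
      have h1 : Tendsto (fun n => ‖x n - X₀‖) atTop (𝓝 0) := tendsto_iff_norm_sub_tendsto_zero.1 htend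
      simpa using h1.const_mul b
    have hev : ∀ᶠ n in atTop, 2 * ‖f n‖ < δ ∧ b * ‖x n - X₀‖ < ε / 2 ∧ i₀ < n := by
      refine (((hf0.const_mul 2).eventually_lt_const (by simpa using hδ)).and
        ((hb0.eventually_lt_const (by positivity)).and (eventually_gt_atTop i₀)))
    obtain ⟨n₀, hn₀⟩ := eventually_atTop.1 hev
    refine ⟨n₀, fun n hn v hv1 hv2 => ?_⟩
    obtain ⟨h1, h2, h3⟩ := hn₀ n hn
    have h4 : N (x n) + c * ‖v‖ ^ p.toReal < N (x n + lp.single p n v) := by
      by_contra hcon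
      push Not at hcon
      have h5 := hV3 n (x n) v hv2 hcon
      rw [← hfn n (by omega)] at h5
      linarith
    have h6 : N (x n + lp.single p n v) ≤ N (X₀ + lp.single p n v) + b * ‖x n - X₀‖ := by
      have h7 : x n + lp.single p n v = (X₀ + lp.single p n v) + (x n - X₀) := by abel
      rw [h7]
      refine (hadd _ _).trans ?_
      have := hNb (x n - X₀)
      linarith
    have h8 : N X₀ ≤ N (x n) + b * ‖x n - X₀‖ := by
      have h9 : X₀ = x n + -(x n - X₀) := by abel
      have h10 := hadd (x n) (-(x n - X₀))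
      rw [← h9, hneg] at h10
      have := hNb (x n - X₀)
      linarith
    linarith

end Pool.Agent.Helper15.SR
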