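import Mathlib

/-! Taylor expansion of order `n + 1` at a point, with uniform little-o remainder. -/

set_option autoImplicit false

namespace Pool.Agent.Helper15.SR

open Set Filter Topology

variable {X : Type*} [NormedAddCommGroup X] [NormedSpace ℝ X]

/-- Taylor's formula at one point: the remainder of order `n + 1` is `o(‖y‖ ^ (n + 1))`. -/
theorem taylor_at {f : X → ℝ} {x : X} {n : ℕ}
    (hf : ContDiffAt ℝ ((n + 1 : ℕ) : WithTop ℕ∞) f x) {ε : ℝ} (hε : 0 < ε) :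
    ∃ r > 0, ∀ y : X, ‖y‖ ≤ r →
      |f (x + y) - ∑ k ∈ Finset.range (n + 2),
        ((k.factorial : ℝ)⁻¹ * iteratedFDeriv ℝ k f x (fun _ => y))| ≤ ε * ‖y‖ ^ (n + 1) := by
  have hev : ∀ᶠ z in 𝓝 x, ContDiffAt ℝ ((n + 1 : ℕ) : WithTop ℕ∞) f z :=
    hf.eventually (by simp)
  have hcont : ContinuousAt (iteratedFDeriv ℝ (n + 1) f) x :=
    (hf.iteratedFDeriv_right (i := n + 1) (m := 0) (by simp)).continuousAt
  have hev2 : ∀ᶠ z in 𝓝 x, ‖iteratedFDeriv ℝ (n + 1) f z - iteratedFDeriv ℝ (n + 1) f x‖ < ε := by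
    have := Metric.tendsto_nhds.1 hcont ε hε
    simpa [dist_eq_norm] using this
  obtain ⟨r, hr, hball⟩ := Metric.eventually_nhds_iff_ball.1 (hev.and hev2)
  refine ⟨r / 2, by positivity, fun y hy => ?_⟩
  have hmem : ∀ t : ℝ, t ∈ Icc (0 : ℝ) 1 → x + t • y ∈ Metric.ball x r := by
    intro t ht
    rw [mem_ball_iff_norm, add_sub_cancel_left, norm_smul, Real.norm_eq_abs, abs_of_nonneg ht.1]
    nlinarith [ht.2, norm_nonneg y]
  have hT := map_add_eq_sum_add_integral_iteratedFDeriv (f := f) (x := x) (y := y) (n := n)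
    (fun t ht => by exact_mod_cast (hball _ (hmem t ht)).1)
  rw [hT, Finset.sum_range_succ _ (n + 1)]
  set D := fun t : ℝ => iteratedFDeriv ℝ (n + 1) f (x + t • y) (fun _ => y) with hD
  have hDc : ContinuousOn D (Icc (0 : ℝ) 1) := by
    intro t ht
    have hft := (hball _ (hmem t ht)).1
    have h_cont : ContinuousAt (iteratedFDeriv ℝ (n + 1) f) (x + t • y) :=
      (hft.iteratedFDeriv_right (i := n + 1) (m := 0) (by simp)).continuousAt
    exact (h_cont.comp (x := t) (by fun_prop)).continuousWithinAt.eval_const _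
  have hint1 : IntervalIntegrable (fun t => (1 - t) ^ n • D t) MeasureTheory.volume 0 1 := by
    apply ContinuousOn.intervalIntegrable
    rw [uIcc_of_le zero_le_one]
    exact ((continuous_const.sub continuous_id).pow n).continuousOn.smul hDc
  have hint2 : IntervalIntegrable (fun t : ℝ => (1 - t) ^ n • iteratedFDeriv ℝ (n + 1) f x (fun _ => y))
      MeasureTheory.volume 0 1 := by
    apply Continuous.intervalIntegrable
    fun_prop
  have hI : ∫ t in (0:ℝ)..1, (1 - t) ^ n • iteratedFDeriv ℝ (n + 1) f x (fun _ => y) =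
      ((n + 1 : ℝ))⁻¹ * iteratedFDeriv ℝ (n + 1) f x (fun _ => y) := by
    rw [intervalIntegral.integral_smul_const, smul_eq_mul]
    congr 1
    have := intervalIntegral.integral_comp_sub_left (fun t : ℝ => t ^ n) (1 : ℝ) (a := 0) (b := 1)
    rw [this]
    simp [integral_pow]
  have hdiff : ‖∫ t in (0:ℝ)..1, ((1 - t) ^ n • D t -
      (1 - t) ^ n • iteratedFDeriv ℝ (n + 1) f x (fun _ => y))‖ ≤ (ε * ‖y‖ ^ (n + 1)) * |1 - 0| := by
    apply intervalIntegral.norm_integral_le_of_norm_le_const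
    intro t ht
    rw [uIoc_of_le zero_le_one] at ht
    have ht' : t ∈ Icc (0 : ℝ) 1 := ⟨ht.1.le, ht.2⟩
    rw [← smul_sub, norm_smul]
    have h1 : ‖(1 - t) ^ n‖ ≤ 1 := by
      rw [Real.norm_eq_abs, abs_of_nonneg (by have := ht'.2; positivity)]
      exact pow_le_one₀ (by linarith [ht'.2]) (by linarith [ht'.1])
    have h2 : ‖D t - iteratedFDeriv ℝ (n + 1) f x (fun _ => y)‖ ≤ ε * ‖y‖ ^ (n + 1) := by
      have h3 : D t - iteratedFDeriv ℝ (n + 1) f x (fun _ => y) =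
          (iteratedFDeriv ℝ (n + 1) f (x + t • y) - iteratedFDeriv ℝ (n + 1) f x) (fun _ => y) := by
        simp [hD]
      rw [h3]
      refine (ContinuousMultilinearMap.le_opNorm _ _).trans ?_
      simp only [Finset.prod_const, Finset.card_univ, Fintype.card_fin]
      exact mul_le_mul_of_nonneg_right ((hball _ (hmem t ht')).2.le) (by positivity)
    calc ‖(1 - t) ^ n‖ * ‖D t - iteratedFDeriv ℝ (n + 1) f x (fun _ => y)‖
        ≤ 1 * (ε * ‖y‖ ^ (n + 1)) := mul_le_mul h1 h2 (norm_nonneg _) zero_le_one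
      _ = _ := one_mul _
  rw [intervalIntegral.integral_sub hint1 hint2, hI] at hdiff
  have hfac : (((n + 1).factorial : ℝ))⁻¹ = (n.factorial : ℝ)⁻¹ * ((n + 1 : ℝ))⁻¹ := by
    rw [Nat.factorial_succ]; push_cast; rw [mul_inv, mul_comm]
  have hfle : (n.factorial : ℝ)⁻¹ ≤ 1 := by
    apply inv_le_one_of_one_le₀
    exact_mod_cast Nat.factorial_pos n
  simp only [smul_eq_mul] at *
  rw [hfac]
  have key : (∑ x_1 ∈ Finset.range (n + 1), (x_1.factorial : ℝ)⁻¹ * iteratedFDeriv ℝ x_1 f x fun _ => y) +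
      (n.factorial : ℝ)⁻¹ * (∫ t in (0:ℝ)..1, (1 - t) ^ n * D t) -
      ((∑ x_1 ∈ Finset.range (n + 1), (x_1.factorial : ℝ)⁻¹ * iteratedFDeriv ℝ x_1 f x fun _ => y) +
      (n.factorial : ℝ)⁻¹ * ((n:ℝ) + 1)⁻¹ * iteratedFDeriv ℝ (n + 1) f x (fun _ => y)) =
      (n.factorial : ℝ)⁻¹ * ((∫ t in (0:ℝ)..1, (1 - t) ^ n * D t) -
        ((n + 1 : ℝ))⁻¹ * iteratedFDeriv ℝ (n + 1) f x (fun _ => y)) := by ring
  rw [key, abs_mul, abs_of_nonneg (by positivity : (0:ℝ) ≤ (n.factorial : ℝ)⁻¹)]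
  have hd : |(∫ t in (0:ℝ)..1, (1 - t) ^ n * D t) -
        ((n + 1 : ℝ))⁻¹ * iteratedFDeriv ℝ (n + 1) f x (fun _ => y)| ≤ ε * ‖y‖ ^ (n + 1) := by
    simpa using hdiff
  calc (n.factorial : ℝ)⁻¹ * |(∫ t in (0:ℝ)..1, (1 - t) ^ n * D t) -
        ((n + 1 : ℝ))⁻¹ * iteratedFDeriv ℝ (n + 1) f x (fun _ => y)| ≤ 1 * (ε * ‖y‖ ^ (n + 1)) :=
        mul_le_mul hfle hd (abs_nonneg _) zero_le_one
    _ = _ := one_mul _

end Pool.Agent.Helper15.SR
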