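import Mathlib

/-! A polynomial of degree `d < 1/θ` vanishes asymptotically along vectors with an upper
`1/θ`-estimate. -/

set_option autoImplicit false

namespace Pool.Agent.Helper15.SR

open Set Filter Topology

variable {Z : Type*} [NormedAddCommGroup Z] [NormedSpace ℝ Z]

theorem restrict_bound {ι : Type} [Fintype ι] [DecidableEq ι]
    (B : MultilinearMap ℝ (fun _ : ι => Z) ℝ) {C : ℝ} (hB : ∀ m : ι → Z, |B m| ≤ C * ∏ i, ‖m i‖)
    (s : Finset ι) (x : Z) (m : {i // i ∈ s} → Z) :
    |B.domDomRestrict (fun i => i ∈ s) (fun _ => x) m| ≤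
      (C * ‖x‖ ^ (Fintype.card {i // ¬ i ∈ s})) * ∏ i, ‖m i‖ := by
  rw [MultilinearMap.domDomRestrict_apply]
  refine (hB _).trans (le_of_eq ?_)
  rw [mul_assoc]
  congr 1
  rw [← Fintype.prod_subtype_mul_prod_subtype (fun i => i ∈ s)]
  rw [mul_comm]
  congr 1
  · rw [Finset.prod_congr rfl (g := fun _ => ‖x‖)]
    · simp
    · rintro ⟨i, hi⟩ -
      simp [hi]
  · refine Finset.prod_congr (by ext; simp) ?_
    rintro ⟨i, hi⟩ -
    simp [hi]

theorem vanish (S : ℕ → Set Z) (θ : ℝ)
    (hS : ∀ (F : Finset ℕ) (z : ℕ → Z), (∀ i ∈ F, z i ∈ S i) → ‖∑ i ∈ F, z i‖ ≤ (F.card : ℝ) ^ θ) :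
    ∀ (d : ℕ), 1 ≤ d → (d : ℝ) * θ < 1 → ∀ (ι : Type) [Fintype ι], Fintype.card ι = d →
      ∀ (B : MultilinearMap ℝ (fun _ : ι => Z) ℝ) (C : ℝ), (∀ m : ι → Z, |B m| ≤ C * ∏ i, ‖m i‖) →
      ∀ ε > 0, ∃ N : ℕ, ∀ n ≥ N, ∀ z ∈ S n, |B (fun _ => z)| ≤ ε := by
  intro d
  induction d using Nat.strong_induction_on with
  | _ d ih =>
  intro hd hdθ ι _ hcard B C hB ε hε
  classical
  have hne : Nonempty ι := by
    rw [← Fintype.card_pos_iff, hcard]; omega
  by_contra hcon
  push Not at hcon
  have hsign : ∃ σ : ℝ, |σ| = 1 ∧ ∀ N : ℕ, ∃ n ≥ N, ∃ z ∈ S n, ε < σ * B (fun _ => z) := by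
    by_contra hc
    push Not at hc
    obtain ⟨N1, h1⟩ := hc 1 (by simp)
    obtain ⟨N2, h2⟩ := hc (-1) (by simp)
    obtain ⟨n, hn, z, hz, hlt⟩ := hcon (max N1 N2)
    have a1 := h1 n ((le_max_left _ _).trans hn) z hz
    have a2 := h2 n ((le_max_right _ _).trans hn) z hz
    rcases lt_abs.1 hlt with h | h <;> linarith
  obtain ⟨σ, hσ, hs⟩ := hsign
  set δ : ℝ := ε / (2 * 2 ^ (Fintype.card ι)) with hδdef
  have hδ : 0 < δ := by positivity
  have build : ∀ m : ℕ, ∃ (F : Finset ℕ) (z : ℕ → Z), F.card = m ∧ (∀ i ∈ F, z i ∈ S i) ∧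
      (m : ℝ) * (ε / 2) ≤ σ * B (fun _ => ∑ i ∈ F, z i) := by
    intro m
    induction m with
    | zero =>
      refine ⟨∅, fun _ => 0, by simp, by simp, ?_⟩
      simp only [Finset.sum_empty, Nat.cast_zero, zero_mul]
      have : B (fun _ => (0 : Z)) = 0 := B.map_zero
      rw [this]; simp
    | succ m ihm =>
      obtain ⟨F, z, hF, hz, hle⟩ := ihm
      set x : Z := ∑ i ∈ F, z i with hx
      have mixed : ∀ s : Finset ι, ∃ N : ℕ, s ≠ ∅ → s ≠ Finset.univ → ∀ n ≥ N, ∀ w ∈ S n,
          |B (s.piecewise (fun _ => w) (fun _ => x))| ≤ δ := by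
        intro s
        by_cases hs1 : s = ∅
        · exact ⟨0, fun h => absurd hs1 h⟩
        by_cases hs2 : s = Finset.univ
        · exact ⟨0, fun _ h => absurd hs2 h⟩
        have hc1 : 1 ≤ s.card := Finset.card_pos.2 (Finset.nonempty_iff_ne_empty.2 hs1)
        have hc2 : s.card < d := by
          rw [← hcard]
          exact (Finset.card_lt_iff_ne_univ s).2 hs2
        have hc3 : (s.card : ℝ) * θ < 1 := by
          rcases le_or_gt θ 0 with h | h
          · have : (s.card : ℝ) * θ ≤ 0 := mul_nonpos_of_nonneg_of_nonpos (by positivity) h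
            linarith
          · have : (s.card : ℝ) * θ ≤ (d : ℝ) * θ := by
              apply mul_le_mul_of_nonneg_right _ h.le
              exact_mod_cast hc2.le
            linarith
        obtain ⟨N, hN⟩ := ih s.card hc2 hc1 hc3 {i // i ∈ s} (by simp)
          (B.domDomRestrict (fun i => i ∈ s) (fun _ => x))
          (C * ‖x‖ ^ (Fintype.card {i // ¬ i ∈ s})) (restrict_bound B hB s x) δ hδ
        refine ⟨N, fun _ _ n hn w hw => ?_⟩
        have := hN n hn w hw
        rw [MultilinearMap.domDomRestrict_apply] at this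
        have he : (s.piecewise (fun _ => w) (fun _ => x) : ι → Z) =
            fun j => if h : j ∈ s then w else x := by
          funext j
          by_cases hj : j ∈ s <;> simp [hj]
        rw [he]
        exact this
      choose N hN using mixed
      obtain ⟨n, hn, w, hw, hlt⟩ := hs (max (Finset.univ.sup N) (F.sup id + 1))
      have hn1 : ∀ s, N s ≤ n := fun s => (Finset.le_sup (f := N) (Finset.mem_univ s)).trans
        ((le_max_left _ _).trans hn)
      have hn2 : n ∉ F := by
        intro hmem
        have h1 : n ≤ F.sup id := Finset.le_sup (f := id) hmem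
        have h2 := (le_max_right (Finset.univ.sup N) (F.sup id + 1)).trans hn
        omega
      refine ⟨insert n F, Function.update z n w, by rw [Finset.card_insert_of_notMem hn2, hF], ?_, ?_⟩
      · intro i hi
        rcases Finset.mem_insert.1 hi with rfl | hi
        · simpa using hw
        · have : i ≠ n := fun h => hn2 (h ▸ hi)
          rw [Function.update_of_ne this]
          exact hz i hi
      · have hsum : ∑ i ∈ insert n F, Function.update z n w i = w + x := by
          rw [Finset.sum_insert hn2, Function.update_self, hx]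
          congr 1
          apply Finset.sum_congr rfl
          intro i hi
          have : i ≠ n := fun h => hn2 (h ▸ hi)
          rw [Function.update_of_ne this]
        rw [hsum]
        have hexp : B (fun _ => w + x) = ∑ s : Finset ι, B (s.piecewise (fun _ => w) (fun _ => x)) :=
          B.map_add_univ (fun _ => w) (fun _ => x)
        have hEU : (∅ : Finset ι) ≠ Finset.univ := by
          obtain ⟨i⟩ := hne
          intro h
          have := Finset.mem_univ i
          rw [← h] at this
          simp at this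
        rw [hexp, ← Finset.add_sum_erase _ _ (Finset.mem_univ (∅ : Finset ι)),
          ← Finset.add_sum_erase _ _ (Finset.mem_erase.2 ⟨hEU.symm, Finset.mem_univ (Finset.univ : Finset ι)⟩)]
        have e1 : B ((∅ : Finset ι).piecewise (fun _ => w) (fun _ => x)) = B (fun _ => x) := by
          simp
        have e2 : B ((Finset.univ : Finset ι).piecewise (fun _ => w) (fun _ => x)) = B (fun _ => w) := by
          simp
        rw [e1, e2]
        have hrest : -(ε / 2) ≤ σ * ∑ s ∈ ((Finset.univ : Finset (Finset ι)).erase ∅).erase Finset.univ,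
            B (s.piecewise (fun _ => w) (fun _ => x)) := by
          have habs : |σ * ∑ s ∈ ((Finset.univ : Finset (Finset ι)).erase ∅).erase Finset.univ,
            B (s.piecewise (fun _ => w) (fun _ => x))| ≤ ε / 2 := by
            rw [abs_mul, hσ, one_mul]
            calc |∑ s ∈ ((Finset.univ : Finset (Finset ι)).erase ∅).erase Finset.univ,
                  B (s.piecewise (fun _ => w) (fun _ => x))|
                ≤ ∑ s ∈ ((Finset.univ : Finset (Finset ι)).erase ∅).erase Finset.univ,
                  |B (s.piecewise (fun _ => w) (fun _ => x))| := Finset.abs_sum_le_sum_abs _ _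
              _ ≤ ∑ s ∈ ((Finset.univ : Finset (Finset ι)).erase ∅).erase Finset.univ, δ := by
                  apply Finset.sum_le_sum
                  intro s hs'
                  rw [Finset.mem_erase, Finset.mem_erase] at hs'
                  exact hN s hs'.2.1 hs'.1 n (hn1 s) w hw
              _ = ((((Finset.univ : Finset (Finset ι)).erase ∅).erase Finset.univ).card : ℝ) * δ := by
                  rw [Finset.sum_const, nsmul_eq_mul]
              _ ≤ (2 ^ (Fintype.card ι) : ℝ) * δ := by
                  apply mul_le_mul_of_nonneg_right _ hδ.le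
                  have h1 : (((Finset.univ : Finset (Finset ι)).erase ∅).erase Finset.univ).card ≤
                      (Finset.univ : Finset (Finset ι)).card :=
                    Finset.card_le_card ((Finset.erase_subset _ _).trans (Finset.erase_subset _ _))
                  have h2 : (Finset.univ : Finset (Finset ι)).card = 2 ^ (Fintype.card ι) := by
                    rw [Finset.card_univ, Fintype.card_finset]
                  rw [h2] at h1
                  exact_mod_cast h1
              _ = ε / 2 := by rw [hδdef]; field_simp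
          exact (abs_le.1 habs).1
        have hσB : ∀ a b c : ℝ, σ * (a + (b + c)) = σ * a + σ * b + σ * c := by intros; ring
        rw [hσB]
        push_cast
        linarith
  have hupper : ∀ m : ℕ, (m : ℝ) * (ε / 2) ≤ C * ((m : ℝ) ^ θ) ^ d := by
    intro m
    obtain ⟨F, z, hF, hz, hle⟩ := build m
    have h1 := hS F z hz
    rw [hF] at h1
    have hC : 0 ≤ C ∨ C < 0 := le_or_gt 0 C
    have hb := hB (fun _ => ∑ i ∈ F, z i)
    have hprod : ∏ _i : ι, ‖∑ i ∈ F, z i‖ = ‖∑ i ∈ F, z i‖ ^ d := by
      rw [Finset.prod_const, Finset.card_univ, hcard]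
    rw [hprod] at hb
    have hle2 : σ * B (fun _ => ∑ i ∈ F, z i) ≤ |B (fun _ => ∑ i ∈ F, z i)| := by
      calc σ * B (fun _ => ∑ i ∈ F, z i) ≤ |σ * B (fun _ => ∑ i ∈ F, z i)| := le_abs_self _
        _ = _ := by rw [abs_mul, hσ, one_mul]
    rcases hC with hC | hC
    · calc (m : ℝ) * (ε / 2) ≤ _ := hle
        _ ≤ _ := hle2
        _ ≤ _ := hb
        _ ≤ C * ((m : ℝ) ^ θ) ^ d := by
          apply mul_le_mul_of_nonneg_left _ hC
          exact pow_le_pow_left₀ (norm_nonneg _) h1 d
    · -- then B is zero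
      exfalso
      obtain ⟨n, hn, w, hw, hlt⟩ := hs 0
      have hb' := hB (fun _ => w)
      have : |B (fun _ => w)| ≤ 0 := hb'.trans
        (mul_nonpos_of_nonpos_of_nonneg hC.le (Finset.prod_nonneg fun _ _ => norm_nonneg _))
      have h0 : B (fun _ => w) = 0 := abs_nonpos_iff.1 this
      rw [h0] at hlt
      simp at hlt
      linarith
  -- contradiction for large m
  have htend : Tendsto (fun m : ℕ => (m : ℝ) ^ (1 - (d : ℝ) * θ)) atTop atTop :=
    (tendsto_rpow_atTop (by linarith)).comp tendsto_natCast_atTop_atTop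
  obtain ⟨m, hm1, hm2⟩ := ((htend.eventually_gt_atTop (2 * C / ε)).and
    (eventually_ge_atTop 1)).exists
  have hmpos : (0 : ℝ) < (m : ℝ) := by exact_mod_cast hm2
  have h3 := hupper m
  rw [← Real.rpow_natCast, ← Real.rpow_mul hmpos.le] at h3
  have h4 : (m : ℝ) ^ (1 - (d : ℝ) * θ) * (m : ℝ) ^ (θ * (d : ℝ)) = (m : ℝ) := by
    rw [← Real.rpow_add hmpos]
    have : 1 - (d : ℝ) * θ + θ * (d : ℝ) = 1 := by ring
    rw [this, Real.rpow_one]
  have h5 : 0 < (m : ℝ) ^ (θ * (d : ℝ)) := Real.rpow_pos_of_pos hmpos _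
  have h6 : (2 * C / ε) * (m : ℝ) ^ (θ * (d : ℝ)) < (m : ℝ) := by
    calc _ < (m : ℝ) ^ (1 - (d : ℝ) * θ) * (m : ℝ) ^ (θ * (d : ℝ)) :=
          mul_lt_mul_of_pos_right hm1 h5
      _ = _ := h4
  have h7 : (2 * C / ε) * (m : ℝ) ^ (θ * (d : ℝ)) * (ε / 2) < (m : ℝ) * (ε / 2) :=
    mul_lt_mul_of_pos_right h6 (by positivity)
  have h8 : (2 * C / ε) * (m : ℝ) ^ (θ * (d : ℝ)) * (ε / 2) = C * (m : ℝ) ^ (θ * (d : ℝ)) := by
    field_simp
  rw [h8] at h7
  linarith

end Pool.Agent.Helper15.SR
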