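import Pool.Agent.Helper15.SR.Defs
import Pool.Agent.Helper15.SR.Taylor
import Pool.Agent.Helper15.SR.Vanish
import Pool.Agent.Helper15.SR.Greedy

/-! Smooth norms on `ℓ_p`-sums: the exponent is an even integer and the blocks carry asymptotically
convex coercive `p`-homogeneous polynomials. -/

set_option autoImplicit false

namespace Pool.Agent.Helper15.SR

open Set Filter Topology
open scoped ENNReal

variable {E : ℕ → Type*} [∀ n, NormedAddCommGroup (E n)] [∀ n, NormedSpace ℝ (E n)]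
  {p : ℝ≥0∞}

theorem blockPoly_smul [Fact (1 ≤ p)] (N : lp E p → ℝ) (x₀ : lp E p) (q n : ℕ) (t : ℝ) (v : E n) :
    blockPoly N x₀ q n (t • v) = t ^ q * blockPoly N x₀ q n v := by
  unfold blockPoly
  simp only [lp.single_smul]
  rw [ContinuousMultilinearMap.map_smul_univ]
  simp only [Finset.prod_const, Finset.card_univ, Fintype.card_fin, smul_eq_mul]
  ring

theorem blockPoly_le [Fact (1 ≤ p)] (N : lp E p → ℝ) (x₀ : lp E p) (q n : ℕ) (v : E n) :
    |blockPoly N x₀ q n v| ≤ ‖iteratedFDeriv ℝ q N x₀‖ * ‖v‖ ^ q := by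
  unfold blockPoly
  rw [abs_mul, abs_of_nonneg (by positivity : (0:ℝ) ≤ (q.factorial : ℝ)⁻¹)]
  have h1 : (q.factorial : ℝ)⁻¹ ≤ 1 := by
    apply inv_le_one_of_one_le₀
    exact_mod_cast Nat.factorial_pos q
  have h2 := ContinuousMultilinearMap.le_opNorm (iteratedFDeriv ℝ q N x₀)
    (fun _ => lp.single p n v)
  simp only [Finset.prod_const, Finset.card_univ, Fintype.card_fin] at h2
  rw [lp.norm_single (zero_lt_one.trans_le Fact.out)] at h2
  calc (q.factorial : ℝ)⁻¹ * |iteratedFDeriv ℝ q N x₀ fun _ => lp.single p n v|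
      ≤ 1 * (‖iteratedFDeriv ℝ q N x₀‖ * ‖v‖ ^ q) :=
        mul_le_mul h1 h2 (abs_nonneg _) zero_le_one
    _ = _ := one_mul _

/-- the expansion on the blocks -/
theorem expansion [Fact (1 ≤ p)] (hp : p ≠ ∞) (N : lp E p → ℝ) (x₀ : lp E p) (q' : ℕ)
    (hq : (q' : ℝ) < p.toReal)
    (hN : ContDiffAt ℝ ((q' + 1 : ℕ) : WithTop ℕ∞) N x₀) {η : ℝ} (hη : 0 < η) :
    ∃ r > 0, ∀ ε > 0, ∃ n₀ : ℕ, ∀ n ≥ n₀, ∀ v : E n, ‖v‖ ≤ r →
      |N (x₀ + lp.single p n v) - N x₀ - blockPoly N x₀ (q' + 1) n v| ≤ ε + η * ‖v‖ ^ (q' + 1) := by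
  have hp0' : 0 < p := zero_lt_one.trans_le Fact.out
  have hp0 : 0 < p.toReal := ENNReal.toReal_pos hp0'.ne' hp
  obtain ⟨r, hr, hT⟩ := taylor_at hN hη
  refine ⟨min r 1, by positivity, fun ε hε => ?_⟩
  set S : ℕ → Set (lp E p) := fun n => {z | ∃ v : E n, ‖v‖ ≤ 1 ∧ lp.single p n v = z} with hS
  have hSsum : ∀ (F : Finset ℕ) (z : ℕ → lp E p), (∀ i ∈ F, z i ∈ S i) →
      ‖∑ i ∈ F, z i‖ ≤ (F.card : ℝ) ^ (1 / p.toReal) := by
    intro F z hz
    choose! v hv1 hv2 using hz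
    have h1 : ∑ i ∈ F, z i = ∑ i ∈ F, lp.single p i (v i) :=
      Finset.sum_congr rfl fun i hi => (hv2 i hi).symm
    have h2 := lp.norm_sum_single hp0 v F
    rw [← h1] at h2
    have h3 : ‖∑ i ∈ F, z i‖ ^ p.toReal ≤ (F.card : ℝ) := by
      rw [h2]
      calc ∑ i ∈ F, ‖v i‖ ^ p.toReal ≤ ∑ i ∈ F, (1 : ℝ) := by
            refine Finset.sum_le_sum fun i hi => ?_
            exact Real.rpow_le_one (norm_nonneg _) (hv1 i hi) hp0.le
        _ = F.card := by simp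
    have h4 := Real.rpow_le_rpow (by positivity) h3 (show 0 ≤ 1 / p.toReal by positivity)
    rwa [← Real.rpow_mul (norm_nonneg _), mul_one_div_cancel hp0.ne', Real.rpow_one] at h4
  have hvan : ∀ j ∈ Finset.range q', ∀ᶠ n in atTop, ∀ v : E n, ‖v‖ ≤ 1 →
      |((j + 1).factorial : ℝ)⁻¹ * iteratedFDeriv ℝ (j + 1) N x₀ (fun _ => lp.single p n v)| ≤
        ε / (q' + 1) := by
    intro j hj
    rw [Finset.mem_range] at hj
    have hjp : ((j + 1 : ℕ) : ℝ) * (1 / p.toReal) < 1 := by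
      rw [mul_one_div, div_lt_one hp0]
      have : ((j + 1 : ℕ) : ℝ) ≤ (q' : ℝ) := by exact_mod_cast hj
      linarith
    obtain ⟨M, hM⟩ := vanish S (1 / p.toReal) hSsum (j + 1) (by omega) hjp (Fin (j + 1)) (by simp)
      (((j + 1).factorial : ℝ)⁻¹ • iteratedFDeriv ℝ (j + 1) N x₀).toMultilinearMap
      ‖((j + 1).factorial : ℝ)⁻¹ • iteratedFDeriv ℝ (j + 1) N x₀‖
      (fun m => by
        have := ContinuousMultilinearMap.le_opNorm
          (((j + 1).factorial : ℝ)⁻¹ • iteratedFDeriv ℝ (j + 1) N x₀) m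
        rwa [Real.norm_eq_abs] at this) (ε / (q' + 1)) (by positivity)
    filter_upwards [eventually_ge_atTop M] with n hn v hv
    have := hM n hn (lp.single p n v) ⟨v, hv, rfl⟩
    simpa using this
  obtain ⟨n₀, hn₀⟩ := eventually_atTop.1 ((Finset.range q').eventually_all.2 hvan)
  refine ⟨n₀, fun n hn v hv => ?_⟩
  have hv1 : ‖v‖ ≤ 1 := hv.trans (min_le_right _ _)
  have h1 := hT (lp.single p n v) (by rw [lp.norm_single hp0']; exact hv.trans (min_le_left _ _))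
  rw [lp.norm_single hp0', Finset.sum_range_succ _ (q' + 1), Finset.sum_range_succ' _ q'] at h1
  have h2 : |∑ j ∈ Finset.range q', (((j + 1).factorial : ℝ)⁻¹ *
      iteratedFDeriv ℝ (j + 1) N x₀ (fun _ => lp.single p n v))| ≤ ε := by
    refine (Finset.abs_sum_le_sum_abs _ _).trans ?_
    calc _ ≤ ∑ j ∈ Finset.range q', ε / (q' + 1 : ℝ) :=
          Finset.sum_le_sum fun j hj => hn₀ n hn j hj v hv1
      _ = (q' : ℝ) * (ε / (q' + 1)) := by rw [Finset.sum_const, Finset.card_range, nsmul_eq_mul]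
      _ ≤ ε := by
        rw [mul_div_assoc', div_le_iff₀ (by positivity)]
        nlinarith
  have h0 : ((Nat.factorial 0 : ℕ) : ℝ)⁻¹ * iteratedFDeriv ℝ 0 N x₀ (fun _ => lp.single p n v) = N x₀ := by
    simp
  rw [h0] at h1
  have h3 : N (x₀ + lp.single p n v) - N x₀ - blockPoly N x₀ (q' + 1) n v =
      (N (x₀ + lp.single p n v) - ((∑ j ∈ Finset.range q', (((j + 1).factorial : ℝ)⁻¹ *
      iteratedFDeriv ℝ (j + 1) N x₀ (fun _ => lp.single p n v))) + N x₀ +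
        ((q' + 1).factorial : ℝ)⁻¹ * iteratedFDeriv ℝ (q' + 1) N x₀ fun _ => lp.single p n v)) +
      ∑ j ∈ Finset.range q', (((j + 1).factorial : ℝ)⁻¹ *
      iteratedFDeriv ℝ (j + 1) N x₀ (fun _ => lp.single p n v)) := by
    unfold blockPoly
    ring
  rw [h3]
  refine (abs_add_le _ _).trans ?_
  linarith

/-- Main theorem on blocks. -/
theorem blocks [Fact (1 ≤ p)] (hp : p ≠ ∞) (N : lp E p → ℝ)
    (hadd : ∀ x y, N (x + y) ≤ N x + N y) (hsmul : ∀ (t : ℝ) (x : lp E p), N (t • x) = |t| * N x)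
    {a b : ℝ} (ha : 0 < a) (hNa : ∀ x, a * ‖x‖ ≤ N x) (hNb : ∀ x, N x ≤ b * ‖x‖)
    (k : ℕ) (hk : p.toReal ≤ k) (hN : ContDiffOn ℝ (k : WithTop ℕ∞) N {x | x ≠ 0})
    (hinf : ∀ m : ℕ, ∃ n ≥ m, ∃ v : E n, v ≠ 0) :
    ∃ q : ℕ, p.toReal = q ∧ Even q ∧ ∃ x₀ : lp E p, x₀ ≠ 0 ∧
      (∃ c > 0, ∃ n₀ : ℕ, ∀ n ≥ n₀, ∀ v : E n, c * ‖v‖ ^ q ≤ blockPoly N x₀ q n v) ∧
      (∀ ε > 0, ∃ n₀ : ℕ, ∀ n ≥ n₀, ∀ s : ℝ, 0 ≤ s → s ≤ 1 → ∀ v w : E n, ‖v‖ ≤ 1 → ‖w‖ ≤ 1 →
        blockPoly N x₀ q n (s • v + (1 - s) • w) ≤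
          s * blockPoly N x₀ q n v + (1 - s) * blockPoly N x₀ q n w + ε) := by
  have hp1 : 1 ≤ p.toReal := by
    have h1 : (1 : ℝ≥0∞) ≤ p := Fact.out
    have := ENNReal.toReal_mono hp h1
    simpa using this
  have hp0 : 0 < p.toReal := by linarith
  have hp0' : 0 < p := zero_lt_one.trans_le Fact.out
  obtain ⟨i₀, -, u₀, hu₀⟩ := hinf 0
  obtain ⟨x₀, hx₀, c, hc, hgr⟩ := greedy hp N hadd hsmul ha hNa hNb i₀ u₀ hu₀
  have hunit : ∀ m : ℕ, ∃ n ≥ m, ∃ v : E n, ‖v‖ = 1 := by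
    intro m
    obtain ⟨n, hn, v, hv⟩ := hinf m
    refine ⟨n, hn, (‖v‖)⁻¹ • v, ?_⟩
    rw [norm_smul, norm_inv, norm_norm, inv_mul_cancel₀ (norm_ne_zero_iff.2 hv)]
  -- the integer part
  set q' : ℕ := ⌈p.toReal⌉₊ - 1 with hq'
  have hceil1 : 1 ≤ ⌈p.toReal⌉₊ := Nat.one_le_ceil_iff.2 hp0
  have hceil : ⌈p.toReal⌉₊ = q' + 1 := by omega
  have hq'p : (q' : ℝ) < p.toReal := by
    rw [← Nat.lt_ceil]; omega
  have hpq : p.toReal ≤ ((q' + 1 : ℕ) : ℝ) := by
    rw [← hceil]; exact Nat.le_ceil _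
  have hqk : q' + 1 ≤ k := by
    rw [← hceil]; exact Nat.ceil_le.2 hk
  have hCD : ContDiffAt ℝ ((q' + 1 : ℕ) : WithTop ℕ∞) N x₀ := by
    have h1 : ContDiffAt ℝ (k : WithTop ℕ∞) N x₀ :=
      hN.contDiffAt (isOpen_ne.mem_nhds hx₀)
    exact h1.of_le (by exact_mod_cast hqk)
  -- `p` is an integer
  have hpeq : p.toReal = ((q' + 1 : ℕ) : ℝ) := by
    by_contra hne
    have hlt : p.toReal < ((q' + 1 : ℕ) : ℝ) := lt_of_le_of_ne hpq hne
    obtain ⟨r, hr, hexp⟩ := expansion hp N x₀ q' hq'p hCD one_pos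
    set C : ℝ := ‖iteratedFDeriv ℝ (q' + 1) N x₀‖ with hC
    have hC0 : 0 ≤ C := norm_nonneg _
    -- choose `t`
    have hlim : Tendsto (fun t : ℝ => (C + 1) * t ^ (((q' + 1 : ℕ) : ℝ) - p.toReal)) (𝓝[>] 0)
        (𝓝 0) := by
      have h1 : Tendsto (fun t : ℝ => t ^ (((q' + 1 : ℕ) : ℝ) - p.toReal)) (𝓝[>] 0) (𝓝 0) := by
        have := (Real.continuousAt_rpow_const 0 (((q' + 1 : ℕ) : ℝ) - p.toReal)
          (Or.inr (by linarith))).tendsto
        rw [Real.zero_rpow (by linarith)] at this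
        exact this.mono_left nhdsWithin_le_nhds
      simpa using h1.const_mul (C + 1)
    have hev : ∀ᶠ t : ℝ in 𝓝[>] 0, (C + 1) * t ^ (((q' + 1 : ℕ) : ℝ) - p.toReal) < c ∧
        t ≤ min r (1 / 2) ∧ 0 < t := by
      refine (hlim.eventually_lt_const hc).and (Filter.Eventually.and ?_ self_mem_nhdsWithin)
      exact nhdsWithin_le_nhds (Iic_mem_nhds (by positivity))
    obtain ⟨t, ht1, ht2, ht3⟩ := hev.exists
    have htp : 0 < t ^ p.toReal := Real.rpow_pos_of_pos ht3 _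
    -- choose `ε`
    set G : ℝ := c - (C + 1) * t ^ (((q' + 1 : ℕ) : ℝ) - p.toReal) with hG
    have hGpos : 0 < G := by linarith
    obtain ⟨n1, hn1⟩ := hexp (G * t ^ p.toReal / 4) (by positivity)
    obtain ⟨n2, hn2⟩ := hgr t ht3 (G * t ^ p.toReal / 4) (by positivity)
    obtain ⟨n, hn, u, hu⟩ := hunit (max n1 n2)
    have hnorm : ‖t • u‖ = t := by rw [norm_smul, hu, Real.norm_eq_abs, abs_of_pos ht3, mul_one]
    have e1 := hn1 n ((le_max_left _ _).trans hn) (t • u)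
      (by rw [hnorm]; exact ht2.trans (min_le_left _ _))
    have e2 := hn2 n ((le_max_right _ _).trans hn) (t • u) hnorm.ge
      (by rw [hnorm]; exact ht2.trans (min_le_right _ _))
    have e3 := blockPoly_le N x₀ (q' + 1) n (t • u)
    rw [hnorm] at e1 e2 e3
    have e4 : t ^ (q' + 1) = t ^ p.toReal * t ^ (((q' + 1 : ℕ) : ℝ) - p.toReal) := by
      rw [← Real.rpow_add ht3, add_sub_cancel, Real.rpow_natCast]
    have e5 := (abs_le.1 e1).2
    have e6 := (abs_le.1 e3).2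
    have e7 : c * t ^ p.toReal ≤ G * t ^ p.toReal / 2 + (C + 1) * t ^ (q' + 1) := by linarith
    rw [e4] at e7
    have e8 : G * t ^ p.toReal ≤ G * t ^ p.toReal / 2 := by
      rw [hG] at *
      linarith
    have e9 : 0 < G * t ^ p.toReal := by positivity
    linarith
  have hhom : ∀ n (t : ℝ) (v : E n), blockPoly N x₀ (q' + 1) n (t • v) =
      t ^ (q' + 1) * blockPoly N x₀ (q' + 1) n v := fun n t v => blockPoly_smul N x₀ _ n t v
  -- the lower bound
  have hlow : ∃ n₀ : ℕ, ∀ n ≥ n₀, ∀ v : E n,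
      (c / 2) * ‖v‖ ^ (q' + 1) ≤ blockPoly N x₀ (q' + 1) n v := by
    obtain ⟨r, hr, hexp⟩ := expansion hp N x₀ q' hq'p hCD (show 0 < c / 4 by positivity)
    set t : ℝ := min r (1 / 2) with ht
    have ht0 : 0 < t := by positivity
    obtain ⟨n1, hn1⟩ := hexp (c * t ^ (q' + 1) / 8) (by positivity)
    obtain ⟨n2, hn2⟩ := hgr t ht0 (c * t ^ (q' + 1) / 8) (by positivity)
    have key : ∀ n ≥ max n1 n2, ∀ u : E n, ‖u‖ = 1 → c / 2 ≤ blockPoly N x₀ (q' + 1) n u := by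
      intro n hn u hu
      have hnorm : ‖t • u‖ = t := by rw [norm_smul, hu, Real.norm_eq_abs, abs_of_pos ht0, mul_one]
      have e1 := hn1 n ((le_max_left _ _).trans hn) (t • u)
        (by rw [hnorm]; exact min_le_left _ _)
      have e2 := hn2 n ((le_max_right _ _).trans hn) (t • u) hnorm.ge
        (by rw [hnorm]; exact min_le_right _ _)
      rw [hnorm] at e1 e2
      rw [hpeq, Real.rpow_natCast] at e2
      have e5 := (abs_le.1 e1).2
      rw [hhom] at e5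
      have e6 : (c / 2) * t ^ (q' + 1) ≤ t ^ (q' + 1) * blockPoly N x₀ (q' + 1) n u := by linarith
      have e7 : 0 < t ^ (q' + 1) := by positivity
      rw [mul_comm (t ^ (q' + 1))] at e6
      exact le_of_mul_le_mul_right e6 e7
    refine ⟨max n1 n2, fun n hn v => ?_⟩
    by_cases hv : v = 0
    · subst hv
      have := hhom n 0 0
      rw [zero_smul] at this
      rw [this]
      simp
    · have hvn : ‖v‖ ≠ 0 := norm_ne_zero_iff.2 hv
      have h1 := key n hn ((‖v‖)⁻¹ • v) (by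
        rw [norm_smul, norm_inv, norm_norm, inv_mul_cancel₀ hvn])
      have h2 : v = ‖v‖ • ((‖v‖)⁻¹ • v) := by
        rw [smul_smul, mul_inv_cancel₀ hvn, one_smul]
      calc (c / 2) * ‖v‖ ^ (q' + 1) = ‖v‖ ^ (q' + 1) * (c / 2) := mul_comm _ _
        _ ≤ ‖v‖ ^ (q' + 1) * blockPoly N x₀ (q' + 1) n ((‖v‖)⁻¹ • v) :=
            mul_le_mul_of_nonneg_left h1 (by positivity)
        _ = blockPoly N x₀ (q' + 1) n v := by rw [← hhom, ← h2]
  refine ⟨q' + 1, hpeq, ?_, x₀, hx₀, ⟨c / 2, by positivity, hlow⟩, ?_⟩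
  · -- even
    by_contra hodd
    rw [Nat.not_even_iff_odd] at hodd
    obtain ⟨n₀, hn₀⟩ := hlow
    obtain ⟨n, hn, u, hu⟩ := hunit n₀
    have h1 := hn₀ n hn u
    have h2 := hn₀ n hn (-u)
    have h3 := hhom n (-1) u
    rw [hodd.neg_one_pow, neg_one_smul] at h3
    rw [norm_neg, h3, hu] at h2
    rw [hu] at h1
    simp only [one_pow, mul_one] at h1 h2
    linarith
  · -- convexity
    intro ε hε
    obtain ⟨r, hr, hexp⟩ := expansion hp N x₀ q' hq'p hCD (show 0 < ε / 8 by positivity)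
    set t : ℝ := min r 1 with ht
    have ht0 : 0 < t := by positivity
    have htp : 0 < t ^ (q' + 1) := by positivity
    obtain ⟨n₀, hn₀⟩ := hexp (ε * t ^ (q' + 1) / 8) (by positivity)
    refine ⟨n₀, fun n hn s hs0 hs1 v w hv hw => ?_⟩
    have key : ∀ u : E n, ‖u‖ ≤ 1 →
        |N (x₀ + lp.single p n (t • u)) - N x₀ - t ^ (q' + 1) * blockPoly N x₀ (q' + 1) n u| ≤
          ε * t ^ (q' + 1) / 4 := by
      intro u hu
      have hnorm : ‖t • u‖ ≤ t := by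
        rw [norm_smul, Real.norm_eq_abs, abs_of_pos ht0]
        nlinarith
      have e1 := hn₀ n hn (t • u) (hnorm.trans (min_le_left _ _))
      rw [hhom] at e1
      have e2 : ‖t • u‖ ^ (q' + 1) ≤ t ^ (q' + 1) := pow_le_pow_left₀ (norm_nonneg _) hnorm _
      have e3 : ε / 8 * ‖t • u‖ ^ (q' + 1) ≤ ε / 8 * t ^ (q' + 1) :=
        mul_le_mul_of_nonneg_left e2 (by positivity)
      linarith
    have hz : ‖s • v + (1 - s) • w‖ ≤ 1 := by
      refine (norm_add_le _ _).trans ?_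
      rw [norm_smul, norm_smul, Real.norm_eq_abs, Real.norm_eq_abs, abs_of_nonneg hs0,
        abs_of_nonneg (by linarith)]
      nlinarith
    have k1 := key _ hz
    have k2 := key v hv
    have k3 := key w hw
    have hconv : N (x₀ + lp.single p n (t • (s • v + (1 - s) • w))) ≤
        s * N (x₀ + lp.single p n (t • v)) + (1 - s) * N (x₀ + lp.single p n (t • w)) := by
      have h1 : x₀ + lp.single p n (t • (s • v + (1 - s) • w)) =
          s • (x₀ + lp.single p n (t • v)) + (1 - s) • (x₀ + lp.single p n (t • w)) := by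
        simp only [lp.single_add, lp.single_smul]
        module
      rw [h1]
      refine (hadd _ _).trans ?_
      rw [hsmul, hsmul, abs_of_nonneg hs0, abs_of_nonneg (by linarith)]
    obtain ⟨a1, a2⟩ := abs_le.1 k1
    obtain ⟨b1, b2⟩ := abs_le.1 k2
    obtain ⟨c1, c2⟩ := abs_le.1 k3
    set A := N (x₀ + lp.single p n (t • v)) with hA
    set B := N (x₀ + lp.single p n (t • w)) with hB
    set PA := blockPoly N x₀ (q' + 1) n v with hPA
    set PB := blockPoly N x₀ (q' + 1) n w with hPB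
    set PZ := blockPoly N x₀ (q' + 1) n (s • v + (1 - s) • w) with hPZ
    set τ := t ^ (q' + 1) with hτ
    have d1 : s * A ≤ s * (N x₀ + τ * PA + ε * τ / 4) :=
      mul_le_mul_of_nonneg_left (by linarith) hs0
    have d2 : (1 - s) * B ≤ (1 - s) * (N x₀ + τ * PB + ε * τ / 4) :=
      mul_le_mul_of_nonneg_left (by linarith) (by linarith)
    have d3 : τ * PZ ≤ τ * (s * PA + (1 - s) * PB + ε) := by nlinarith
    exact le_of_mul_le_mul_left d3 htp

end Pool.Agent.Helper15.SR
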