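import Pool.Agent.Helper15.SR.NormOf

/-! Integration of a polynomial over a Lebesgue-Bochner space. -/

set_option autoImplicit false

namespace Pool.Agent.Helper15.SR

open Set Filter Topology MeasureTheory
open scoped ENNReal

variable {E : Type*} [NormedAddCommGroup E] [NormedSpace ℝ E] {q : ℕ}
  {Ω : Type*} [MeasurableSpace Ω] {μ : Measure Ω}

theorem smpi (f : Fin q → Ω → E) (hf : ∀ i, StronglyMeasurable (f i)) :
    StronglyMeasurable (fun t i => f i t) := by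
  have h1 : (fun t i => f i t) = fun t => ∑ i, Pi.single i (f i t) := by
    funext t
    exact (Finset.univ_sum_single (fun i => f i t)).symm
  rw [h1]
  refine Finset.stronglyMeasurable_fun_sum _ fun i _ => ?_
  exact (continuous_single i).comp_stronglyMeasurable (hf i)

theorem norm_pow_eq [Fact (1 ≤ (q : ℝ≥0∞))] (hq : 0 < q) (f : Lp E (q : ℝ≥0∞) μ) :
    Integrable (fun t => ‖f t‖ ^ q) μ ∧ ‖f‖ ^ q = ∫ t, ‖f t‖ ^ q ∂μ := by
  have hq0 : (q : ℝ≥0∞) ≠ 0 := by exact_mod_cast hq.ne'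
  have hqt : (q : ℝ≥0∞) ≠ ∞ := ENNReal.natCast_ne_top q
  have hmem := Lp.memLp f
  have h1 := hmem.integrable_norm_rpow hq0 hqt
  simp only [ENNReal.toReal_natCast, Real.rpow_natCast] at h1
  refine ⟨h1, ?_⟩
  have h2 := hmem.eLpNorm_eq_integral_rpow_norm hq0 hqt
  simp only [ENNReal.toReal_natCast, Real.rpow_natCast] at h2
  rw [Lp.norm_def, h2, ENNReal.toReal_ofReal (by positivity), ← Real.rpow_natCast,
    ← Real.rpow_mul (by positivity), inv_mul_cancel₀ (by exact_mod_cast hq.ne'), Real.rpow_one]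

theorem lint_bound [Fact (1 ≤ (q : ℝ≥0∞))] (hq : 0 < q)
    (L : ContinuousMultilinearMap ℝ (fun _ : Fin q => E) ℝ) (m : Fin q → Lp E (q : ℝ≥0∞) μ) :
    ∫⁻ t, ‖L (fun i => m i t)‖ₑ ∂μ ≤ ENNReal.ofReal (‖L‖ * ∏ i, ‖m i‖) := by
  have hq0 : (q : ℝ≥0∞) ≠ 0 := by exact_mod_cast hq.ne'
  have hqt : (q : ℝ≥0∞) ≠ ∞ := ENNReal.natCast_ne_top q
  have hqR : (0 : ℝ) < q := by exact_mod_cast hq
  have h1 : ∀ t, ‖L (fun i => m i t)‖ₑ ≤ ENNReal.ofReal ‖L‖ * ∏ i, (‖m i t‖ₑ ^ (q : ℝ)) ^ (1 / (q : ℝ)) := by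
    intro t
    have h2 : ∀ i, (‖m i t‖ₑ ^ (q : ℝ)) ^ (1 / (q : ℝ)) = ENNReal.ofReal ‖m i t‖ := by
      intro i
      rw [← ENNReal.rpow_mul, mul_one_div_cancel hqR.ne', ENNReal.rpow_one, ofReal_norm]
    simp only [h2]
    rw [← ENNReal.ofReal_prod_of_nonneg (fun i _ => norm_nonneg _),
      ← ENNReal.ofReal_mul (norm_nonneg _), ← ofReal_norm]
    exact ENNReal.ofReal_le_ofReal (L.le_opNorm _)
  refine (lintegral_mono h1).trans ?_
  rw [lintegral_const_mul' _ _ ENNReal.ofReal_ne_top, ENNReal.ofReal_mul (norm_nonneg _)]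
  refine mul_le_mul_right ?_ _
  have hmeas : ∀ i ∈ (Finset.univ : Finset (Fin q)), AEMeasurable (fun t => ‖m i t‖ₑ ^ (q : ℝ)) μ :=
    fun i _ => ((Lp.stronglyMeasurable (m i)).enorm.pow_const _).aemeasurable
  refine (ENNReal.lintegral_prod_norm_pow_le Finset.univ hmeas (p := fun _ => 1 / (q : ℝ)) ?_ ?_).trans ?_
  · rw [Finset.sum_const, Finset.card_univ, Fintype.card_fin, nsmul_eq_mul, mul_one_div_cancel hqR.ne']
  · intro i _
    positivity
  · rw [ENNReal.ofReal_prod_of_nonneg (fun i _ => norm_nonneg _)]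
    refine Finset.prod_le_prod' fun i _ => ?_
    have h3 : eLpNorm (m i) (q : ℝ≥0∞) μ = (∫⁻ t, ‖m i t‖ₑ ^ (q : ℝ) ∂μ) ^ (1 / (q : ℝ)) := by
      rw [eLpNorm_eq_lintegral_rpow_enorm_toReal hq0 hqt]
      simp only [ENNReal.toReal_natCast]
    rw [← h3, ← Lp.enorm_def, ofReal_norm]

theorem bochnerPoly (μ : Measure Ω) [Fact (1 ≤ (q : ℝ≥0∞))] (hq : 0 < q)
    (L : ContinuousMultilinearMap ℝ (fun _ : Fin q => E) ℝ) :
    ∃ Λ : ContinuousMultilinearMap ℝ (fun _ : Fin q => Lp E (q : ℝ≥0∞) μ) ℝ,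
      (∀ m : Fin q → Lp E (q : ℝ≥0∞) μ, Integrable (fun t => L (fun i => m i t)) μ) ∧
      ∀ m : Fin q → Lp E (q : ℝ≥0∞) μ, Λ m = ∫ t, L (fun i => m i t) ∂μ := by
  have hint : ∀ m : Fin q → Lp E (q : ℝ≥0∞) μ, Integrable (fun t => L (fun i => m i t)) μ := by
    intro m
    refine ⟨(L.cont.comp_stronglyMeasurable (smpi (fun i => (m i : Ω → E))
      fun i => Lp.stronglyMeasurable (m i))).aestronglyMeasurable, ?_⟩
    exact (lint_bound hq L m).trans_lt ENNReal.ofReal_lt_top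
  have hae : ∀ (m : Fin q → Lp E (q : ℝ≥0∞) μ) (i : Fin q) (z : Lp E (q : ℝ≥0∞) μ) (t : Ω),
      (fun j => (Function.update m i z j : Lp E (q : ℝ≥0∞) μ) t) =
        Function.update (fun j => m j t) i (z t) := by
    intro m i z t
    funext j
    by_cases hj : j = i
    · subst hj; simp
    · simp [Function.update_of_ne hj]
  let M : MultilinearMap ℝ (fun _ : Fin q => Lp E (q : ℝ≥0∞) μ) ℝ :=
    { toFun := fun m => ∫ t, L (fun i => m i t) ∂μ
      map_update_add' := by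
        intro inst m i x y
        obtain rfl : inst = instDecidableEqFin q := Subsingleton.elim _ _
        rw [← integral_add (hint _) (hint _)]
        refine integral_congr_ae ?_
        filter_upwards [Lp.coeFn_add x y] with t ht
        rw [hae, hae, hae, ht, Pi.add_apply]
        exact L.map_update_add _ _ _ _
      map_update_smul' := by
        intro inst m i s x
        obtain rfl : inst = instDecidableEqFin q := Subsingleton.elim _ _
        rw [← integral_smul]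
        refine integral_congr_ae ?_
        filter_upwards [Lp.coeFn_smul s x] with t ht
        rw [hae, hae, ht, Pi.smul_apply]
        exact L.map_update_smul _ _ _ _ }
  refine ⟨M.mkContinuous ‖L‖ ?_, hint, fun m => rfl⟩
  intro m
  show ‖∫ t, L (fun i => m i t) ∂μ‖ ≤ ‖L‖ * ∏ i, ‖m i‖
  have h1 : 0 ≤ ‖L‖ * ∏ i, ‖m i‖ := by positivity
  have h2 := (enorm_integral_le_lintegral_enorm (μ := μ) (fun t => L (fun i => m i t))).trans
    (lint_bound hq L m)
  rw [← ofReal_norm] at h2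
  exact (ENNReal.ofReal_le_ofReal_iff h1).1 h2

/-- the norm on the Bochner space -/
theorem bochnerNorm (μ : Measure Ω) [Fact (1 ≤ (q : ℝ≥0∞))] (hq : 0 < q) (heven : Even q)
    (L : ContinuousMultilinearMap ℝ (fun _ : Fin q => E) ℝ) {c : ℝ} (hc : 0 < c)
    (hlow : ∀ v : E, c * ‖v‖ ^ q ≤ L (fun _ => v))
    (hconv : ∀ (s : ℝ), 0 ≤ s → s ≤ 1 → ∀ v w : E,
      L (fun _ => s • v + (1 - s) • w) ≤ s * L (fun _ => v) + (1 - s) * L (fun _ => w)) :
    ∃ (Λ : ContinuousMultilinearMap ℝ (fun _ : Fin q => Lp E (q : ℝ≥0∞) μ) ℝ)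
      (M : Lp E (q : ℝ≥0∞) μ → ℝ), (∀ x y, M (x + y) ≤ M x + M y) ∧
      (∀ (t : ℝ) x, M (t • x) = |t| * M x) ∧
      (∃ c C : ℝ, 0 < c ∧ ∀ x, c * ‖x‖ ≤ M x ∧ M x ≤ C * ‖x‖) ∧
      ContDiffOn ℝ ((⊤ : ℕ∞) : WithTop ℕ∞) M {x | x ≠ 0} ∧ (∀ x, 0 ≤ M x) ∧
      ∀ x, M x ^ q = Λ (fun _ => x) := by
  obtain ⟨Λ, hint, hΛ⟩ := bochnerPoly μ hq L
  refine ⟨Λ, norm_of_poly hq heven Λ hc ?_ ?_⟩
  · intro f
    obtain ⟨h1, h2⟩ := norm_pow_eq hq f
    rw [hΛ, h2, ← integral_const_mul]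
    exact integral_mono (h1.const_mul c) (hint _) fun t => hlow (f t)
  · intro s hs0 hs1 f g
    rw [hΛ, hΛ, hΛ, ← integral_const_mul, ← integral_const_mul,
      ← integral_add ((hint _).const_mul s) ((hint _).const_mul (1 - s))]
    refine integral_mono_ae (hint _) (((hint _).const_mul s).add ((hint _).const_mul (1 - s))) ?_
    filter_upwards [Lp.coeFn_add (s • f) ((1 - s) • g), Lp.coeFn_smul s f,
      Lp.coeFn_smul (1 - s) g] with t h1 h2 h3
    rw [h1, Pi.add_apply, h2, h3, Pi.smul_apply, Pi.smul_apply]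
    exact hconv s hs0 hs1 (f t) (g t)

/-- a power of a norm which is a polynomial is convex and coercive -/
theorem poly_of_norm (hq : 0 < q) (L : ContinuousMultilinearMap ℝ (fun _ : Fin q => E) ℝ)
    (M : E → ℝ) (hadd : ∀ x y, M (x + y) ≤ M x + M y) (hsmul : ∀ (t : ℝ) x, M (t • x) = |t| * M x)
    {c : ℝ} (hc : 0 < c) (hlow : ∀ x, c * ‖x‖ ≤ M x) (hM : ∀ x, M x ^ q = L (fun _ => x)) :
    (∀ v : E, c ^ q * ‖v‖ ^ q ≤ L (fun _ => v)) ∧
    (∀ (s : ℝ), 0 ≤ s → s ≤ 1 → ∀ v w : E,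
      L (fun _ => s • v + (1 - s) • w) ≤ s * L (fun _ => v) + (1 - s) * L (fun _ => w)) := by
  have hM0 : ∀ x, 0 ≤ M x := fun x => le_trans (by positivity) (hlow x)
  refine ⟨fun v => ?_, fun s hs0 hs1 v w => ?_⟩
  · rw [← hM, ← mul_pow]
    exact pow_le_pow_left₀ (by positivity) (hlow v) q
  · rw [← hM, ← hM, ← hM]
    have h1 : M (s • v + (1 - s) • w) ≤ s * M v + (1 - s) * M w := by
      refine (hadd _ _).trans ?_
      rw [hsmul, hsmul, abs_of_nonneg hs0, abs_of_nonneg (by linarith)]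
    refine (pow_le_pow_left₀ (hM0 _) h1 q).trans ?_
    have h2 := (convexOn_pow q).2 (x := M v) (y := M w) (hM0 v) (hM0 w) hs0
      (by linarith : 0 ≤ 1 - s) (by ring)
    simpa using h2

end Pool.Agent.Helper15.SR
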