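import Mathlib

/-! `ℓ_p(X)` embeds isometrically into the Lebesgue-Bochner space `L_p(μ, X)` as soon as there are
infinitely many disjoint sets of finite positive measure. -/

set_option autoImplicit false

namespace Pool.Agent.Helper15.SR

open Set Filter Topology MeasureTheory
open scoped ENNReal

variable {X : Type*} [NormedAddCommGroup X] [NormedSpace ℝ X] {p : ℝ≥0∞}

theorem topmap [Fact (1 ≤ p)] :
    ∃ T : lp (fun n : ℕ => ((fun _ => ⊤ : ℕ → Submodule ℝ X) n)) p →L[ℝ] lp (fun _ : ℕ => X) p,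
      ∀ x, ‖T x‖ = ‖x‖ := by
  have hp0 : p ≠ 0 := (zero_lt_one.trans_le Fact.out).ne'
  have hmem : ∀ x : lp (fun n : ℕ => ((fun _ => ⊤ : ℕ → Submodule ℝ X) n)) p,
      Memℓp (fun n => ((x n : (⊤ : Submodule ℝ X)) : X)) p := fun x =>
    (lp.memℓp x).mono' fun _ => le_rfl
  let T0 : lp (fun n : ℕ => ((fun _ => ⊤ : ℕ → Submodule ℝ X) n)) p →ₗ[ℝ] lp (fun _ : ℕ => X) p :=
    { toFun := fun x => ⟨fun n => ((x n : (⊤ : Submodule ℝ X)) : X), hmem x⟩
      map_add' := fun x y => by ext n; rfl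
      map_smul' := fun t x => by ext n; rfl }
  have hT0 : ∀ x, ‖T0 x‖ = ‖x‖ := by
    intro x
    refine le_antisymm ?_ ?_
    · exact lp.norm_mono hp0 fun i => le_rfl
    · exact lp.norm_mono hp0 fun i => le_rfl
  exact ⟨T0.mkContinuous 1 (fun x => by rw [hT0, one_mul]), hT0⟩

/-- the function attached to a sequence -/
noncomputable def bfun {Ω : Type*} (A : ℕ → Set Ω) (c : ℕ → ℝ) (x : ℕ → X) (t : Ω) : X :=
  ∑' n, (A n).indicator (fun _ => c n • x n) t

section

variable {Ω : Type*} {A : ℕ → Set Ω} (hd : Pairwise (Function.onFun Disjoint A))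
include hd

theorem bfun_mem (c : ℕ → ℝ) (x : ℕ → X) {n : ℕ} {t : Ω} (ht : t ∈ A n) :
    bfun A c x t = c n • x n := by
  unfold bfun
  rw [tsum_eq_single n, indicator_of_mem ht]
  intro m hm
  apply indicator_of_notMem
  intro hmt
  exact Set.disjoint_left.1 (hd hm) hmt ht

omit hd in
theorem bfun_notMem (c : ℕ → ℝ) (x : ℕ → X) {t : Ω} (ht : t ∉ ⋃ n, A n) :
    bfun A c x t = 0 := by
  unfold bfun
  have : ∀ n, (A n).indicator (fun _ => c n • x n) t = 0 := by
    intro n
    apply indicator_of_notMem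
    intro h
    exact ht (mem_iUnion.2 ⟨n, h⟩)
  simp [this]

theorem bfun_hasSum (c : ℕ → ℝ) (x : ℕ → X) (t : Ω) :
    HasSum (fun n => (A n).indicator (fun _ => c n • x n) t) (bfun A c x t) := by
  by_cases ht : t ∈ ⋃ n, A n
  · obtain ⟨n, hn⟩ := mem_iUnion.1 ht
    rw [bfun_mem hd c x hn]
    have h1 : (A n).indicator (fun _ => c n • x n) t = c n • x n := indicator_of_mem hn _
    rw [← h1]
    apply hasSum_single
    intro m hm
    apply indicator_of_notMem
    intro hmt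
    exact Set.disjoint_left.1 (hd hm) hmt hn
  · rw [bfun_notMem c x ht]
    have : (fun n => (A n).indicator (fun _ => c n • x n) t) = fun _ => 0 := by
      funext n
      apply indicator_of_notMem
      intro h
      exact ht (mem_iUnion.2 ⟨n, h⟩)
    rw [this]
    exact hasSum_zero

theorem bfun_add (c : ℕ → ℝ) (x y : ℕ → X) : bfun A c (x + y) = bfun A c x + bfun A c y := by
  funext t
  rw [Pi.add_apply]
  by_cases ht : t ∈ ⋃ n, A n
  · obtain ⟨n, hn⟩ := mem_iUnion.1 ht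
    rw [bfun_mem hd c _ hn, bfun_mem hd c _ hn, bfun_mem hd c _ hn, Pi.add_apply, smul_add]
  · rw [bfun_notMem c _ ht, bfun_notMem c _ ht, bfun_notMem c _ ht, add_zero]

theorem bfun_smul (c : ℕ → ℝ) (s : ℝ) (x : ℕ → X) : bfun A c (s • x) = s • bfun A c x := by
  funext t
  rw [Pi.smul_apply]
  by_cases ht : t ∈ ⋃ n, A n
  · obtain ⟨n, hn⟩ := mem_iUnion.1 ht
    rw [bfun_mem hd c _ hn, bfun_mem hd c _ hn, Pi.smul_apply, smul_comm]
  · rw [bfun_notMem c _ ht, bfun_notMem c _ ht, smul_zero]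

end

theorem bochnerT {Ω : Type*} [MeasurableSpace Ω] (μ : Measure Ω) [Fact (1 ≤ p)] (hp : p ≠ ∞)
    (A : ℕ → Set Ω) (hA : ∀ n, MeasurableSet (A n)) (hd : Pairwise (Function.onFun Disjoint A))
    (h0 : ∀ n, μ (A n) ≠ 0) (hfin : ∀ n, μ (A n) ≠ ∞) :
    ∃ T : lp (fun _ : ℕ => X) p →L[ℝ] Lp X p μ, ∀ x, ‖T x‖ = ‖x‖ := by
  have hp0' : 0 < p := zero_lt_one.trans_le Fact.out
  have hp0 : 0 < p.toReal := ENNReal.toReal_pos hp0'.ne' hp
  set c : ℕ → ℝ := fun n => ((μ (A n)).toReal ^ (1 / p.toReal))⁻¹ with hc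
  have hm : ∀ n, 0 < (μ (A n)).toReal := fun n => ENNReal.toReal_pos (h0 n) (hfin n)
  have hcp : ∀ n, 0 < c n := fun n => inv_pos.2 (Real.rpow_pos_of_pos (hm n) _)
  have hcn : ∀ n, (c n) ^ p.toReal * (μ (A n)).toReal = 1 := by
    intro n
    rw [hc]
    simp only
    rw [Real.inv_rpow (Real.rpow_nonneg (hm n).le _), ← Real.rpow_mul (hm n).le,
      one_div_mul_cancel hp0.ne', Real.rpow_one, inv_mul_cancel₀ (hm n).ne']
  have hmeas : ∀ x : ℕ → X, StronglyMeasurable (bfun A c x) := by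
    intro x
    refine stronglyMeasurable_of_tendsto (f := fun N t => ∑ n ∈ Finset.range N,
      (A n).indicator (fun _ => c n • x n) t) atTop (fun N => ?_) ?_
    · refine Finset.stronglyMeasurable_fun_sum _ fun n _ => ?_
      exact stronglyMeasurable_const.indicator (hA n)
    · rw [tendsto_pi_nhds]
      intro t
      exact (bfun_hasSum hd c x t).tendsto_sum_nat
  have hint : ∀ x : lp (fun _ : ℕ => X) p, ∫⁻ t, ‖bfun A c (fun n => x n) t‖ₑ ^ p.toReal ∂μ =
      ENNReal.ofReal (‖x‖ ^ p.toReal) := by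
    intro x
    have h1 : ∫⁻ t, ‖bfun A c (fun n => x n) t‖ₑ ^ p.toReal ∂μ =
        ∫⁻ t in ⋃ n, A n, ‖bfun A c (fun n => x n) t‖ₑ ^ p.toReal ∂μ := by
      rw [← lintegral_indicator (MeasurableSet.iUnion hA)]
      congr 1
      funext t
      by_cases ht : t ∈ ⋃ n, A n
      · rw [indicator_of_mem ht]
      · rw [indicator_of_notMem ht, bfun_notMem c _ ht, enorm_zero, ENNReal.zero_rpow_of_pos hp0]
    rw [h1, lintegral_iUnion hA hd]
    have h2 : ∀ n, ∫⁻ t in A n, ‖bfun A c (fun n => x n) t‖ₑ ^ p.toReal ∂μ =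
        ENNReal.ofReal (‖x n‖ ^ p.toReal) := by
      intro n
      have h3 : ∫⁻ t in A n, ‖bfun A c (fun n => x n) t‖ₑ ^ p.toReal ∂μ =
          ∫⁻ _ in A n, ENNReal.ofReal ((c n * ‖x n‖) ^ p.toReal) ∂μ := by
        refine setLIntegral_congr_fun (hA n) fun t ht => ?_
        simp only
        rw [bfun_mem hd c _ ht, ← ofReal_norm_eq_enorm, norm_smul, Real.norm_eq_abs,
          abs_of_pos (hcp n), ENNReal.ofReal_rpow_of_nonneg (by have := (hcp n).le; positivity) hp0.le]
      rw [h3, setLIntegral_const, ← ENNReal.ofReal_toReal (hfin n), ← ENNReal.ofReal_mul (by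
        have := (hcp n).le; positivity), Real.mul_rpow (hcp n).le (norm_nonneg _)]
      congr 1
      calc c n ^ p.toReal * ‖x n‖ ^ p.toReal * (μ (A n)).toReal
          = (c n ^ p.toReal * (μ (A n)).toReal) * ‖x n‖ ^ p.toReal := by ring
        _ = ‖x n‖ ^ p.toReal := by rw [hcn, one_mul]
    simp only [h2]
    rw [lp.norm_rpow_eq_tsum hp0, ENNReal.ofReal_tsum_of_nonneg (fun n => by positivity)
      ((lp.memℓp x).summable hp0)]
  have hel : ∀ x : lp (fun _ : ℕ => X) p, eLpNorm (bfun A c (fun n => x n)) p μ =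
      ENNReal.ofReal ‖x‖ := by
    intro x
    rw [eLpNorm_eq_lintegral_rpow_enorm_toReal hp0'.ne' hp, hint,
      ENNReal.ofReal_rpow_of_nonneg (by positivity) (by positivity), ← Real.rpow_mul (norm_nonneg _),
      mul_one_div_cancel hp0.ne', Real.rpow_one]
  have hmem : ∀ x : lp (fun _ : ℕ => X) p, MemLp (bfun A c (fun n => x n)) p μ := by
    intro x
    refine ⟨(hmeas _).aestronglyMeasurable, ?_⟩
    rw [hel]
    exact ENNReal.ofReal_lt_top
  let T0 : lp (fun _ : ℕ => X) p →ₗ[ℝ] Lp X p μ :=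
    { toFun := fun x => (hmem x).toLp _
      map_add' := by
        intro x y
        rw [← MemLp.toLp_add]
        congr 1
        exact bfun_add hd c _ _
      map_smul' := by
        intro s x
        rw [RingHom.id_apply, ← MemLp.toLp_const_smul]
        congr 1
        exact bfun_smul hd c s _ }
  have hT0 : ∀ x, ‖T0 x‖ = ‖x‖ := by
    intro x
    show ‖(hmem x).toLp _‖ = ‖x‖
    rw [Lp.norm_toLp, hel, ENNReal.toReal_ofReal (norm_nonneg _)]
  exact ⟨T0.mkContinuous 1 (fun x => by rw [hT0, one_mul]), hT0⟩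

end Pool.Agent.Helper15.SR
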