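import Mathlib

/-! Limits along an ultrafilter of a bounded multilinear form evaluated at asymptotically linear
sequences of maps. -/

set_option autoImplicit false

namespace Pool.Agent.Helper15.SR

open Set Filter Topology

variable {X Y : Type*} [NormedAddCommGroup X] [NormedSpace ℝ X] [NormedAddCommGroup Y]
  [NormedSpace ℝ Y] {q : ℕ}

theorem seqclose (B : ContinuousMultilinearMap ℝ (fun _ : Fin q => Y) ℝ) (l : Filter ℕ)
    (h h' : ℕ → Fin q → Y) {K : ℝ} (hb : ∀ᶠ n in l, ‖h n‖ ≤ K) (hb' : ∀ᶠ n in l, ‖h' n‖ ≤ K)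
    (hd : Tendsto (fun n => h n - h' n) l (𝓝 0)) :
    Tendsto (fun n => B (h n) - B (h' n)) l (𝓝 0) := by
  have h1 : Tendsto (fun n => ‖B‖ * Fintype.card (Fin q) * K ^ (Fintype.card (Fin q) - 1) *
      ‖h n - h' n‖) l (𝓝 0) := by
    have := (tendsto_zero_iff_norm_tendsto_zero.1 hd).const_mul
      (‖B‖ * Fintype.card (Fin q) * K ^ (Fintype.card (Fin q) - 1))
    simpa using this
  refine squeeze_zero_norm' ?_ h1
  filter_upwards [hb, hb'] with n hn hn'
  refine (B.norm_image_sub_le (h n) (h' n)).trans ?_
  refine mul_le_mul_of_nonneg_right ?_ (norm_nonneg _)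
  refine mul_le_mul_of_nonneg_left ?_ (by positivity)
  exact pow_le_pow_left₀ (le_max_of_le_left (norm_nonneg _)) (max_le hn hn') _

theorem exists_ultra_lim (U : Ultrafilter ℕ) (u : ℕ → ℝ) {K : ℝ} (hu : ∀ᶠ n in (U : Filter ℕ), |u n| ≤ K) :
    ∃ L : ℝ, Tendsto u U (𝓝 L) := by
  have h1 : Icc (-K) K ∈ U.map u := by
    rw [Ultrafilter.mem_map]
    filter_upwards [hu] with n hn
    exact abs_le.1 hn
  obtain ⟨L, -, hL⟩ := isCompact_Icc.ultrafilter_le_nhds' (U.map u) h1
  exact ⟨L, hL⟩

/-- the ultralimit of a bounded multilinear form along an asymptotically linear sequence -/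
theorem multilim (B : ContinuousMultilinearMap ℝ (fun _ : Fin q => Y) ℝ) (U : Ultrafilter ℕ)
    (g : ℕ → X → Y)
    (hadd : ∀ v w, Tendsto (fun n => g n (v + w) - (g n v + g n w)) U (𝓝 0))
    (hsmul : ∀ (t : ℝ) v, Tendsto (fun n => g n (t • v) - t • g n v) U (𝓝 0))
    (hnorm : ∀ v, Tendsto (fun n => ‖g n v‖) U (𝓝 ‖v‖)) :
    ∃ L : ContinuousMultilinearMap ℝ (fun _ : Fin q => X) ℝ,
      ∀ m : Fin q → X, Tendsto (fun n => B (fun i => g n (m i))) U (𝓝 (L m)) := by
  have hprod : ∀ m : Fin q → X, Tendsto (fun n => ‖B‖ * ∏ i, ‖g n (m i)‖) U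
      (𝓝 (‖B‖ * ∏ i, ‖m i‖)) := fun m =>
    (tendsto_finsetProd _ fun i _ => hnorm (m i)).const_mul _
  have hex : ∀ m : Fin q → X, ∃ L : ℝ, Tendsto (fun n => B (fun i => g n (m i))) U (𝓝 L) := by
    intro m
    apply exists_ultra_lim U _ (K := ‖B‖ * ∏ i, ‖m i‖ + 1)
    filter_upwards [(hprod m).eventually_le_const (lt_add_one _)] with n hn
    exact (B.le_opNorm _).trans hn
  choose L hL using hex
  -- boundedness of tuples
  have hbd : ∀ m : Fin q → X, ∃ K : ℝ, ∀ᶠ n in (U : Filter ℕ), ‖(fun i => g n (m i))‖ ≤ K := by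
    intro m
    refine ⟨∑ i, ‖m i‖ + 1, ?_⟩
    have h1 : ∀ᶠ n in (U : Filter ℕ), ∀ i, ‖g n (m i)‖ ≤ ∑ i, ‖m i‖ + 1 := by
      rw [eventually_all]
      intro i
      refine (hnorm (m i)).eventually_le_const ?_
      have : ‖m i‖ ≤ ∑ i, ‖m i‖ :=
        Finset.single_le_sum (f := fun i => ‖m i‖) (fun _ _ => norm_nonneg _) (Finset.mem_univ i)
      linarith
    filter_upwards [h1] with n hn
    have h0 : 0 ≤ ∑ i, ‖m i‖ + 1 := by
      have : 0 ≤ ∑ i, ‖m i‖ := Finset.sum_nonneg fun _ _ => norm_nonneg _
      linarith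
    exact (pi_norm_le_iff_of_nonneg h0).2 hn
  have hupd : ∀ (m : Fin q → X) (i : Fin q) (z : X) (n : ℕ),
      (fun j => g n (Function.update m i z j)) = Function.update (fun j => g n (m j)) i (g n z) := by
    intro m i z n
    funext j
    by_cases hj : j = i
    · subst hj; simp
    · simp [Function.update_of_ne hj]
  have hbd2 : ∀ (m : Fin q → X) (i : Fin q) (y : ℕ → Y), Tendsto y U (𝓝 0) → ∀ z : X,
      ∃ K : ℝ, ∀ᶠ n in (U : Filter ℕ), ‖Function.update (fun j => g n (m j)) i (g n z + y n)‖ ≤ K := by
    intro m i y hy z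
    obtain ⟨K, hK⟩ := hbd (Function.update m i z)
    refine ⟨K + 1, ?_⟩
    have hy1 : ∀ᶠ n in (U : Filter ℕ), ‖y n‖ ≤ 1 := by
      have := (tendsto_zero_iff_norm_tendsto_zero.1 hy).eventually_le_const one_pos
      exact this
    filter_upwards [hK, hy1] with n hn1 hn2
    rw [hupd] at hn1
    have h0 : 0 ≤ K := (norm_nonneg _).trans hn1
    rw [pi_norm_le_iff_of_nonneg (by linarith)]
    intro j
    have h2 := (pi_norm_le_iff_of_nonneg h0).1 hn1 j
    by_cases hj : j = i
    · subst hj
      simp only [Function.update_self] at h2 ⊢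
      exact (norm_add_le _ _).trans (by linarith)
    · simp only [Function.update_of_ne hj] at h2 ⊢
      linarith
  -- key: replacing an entry by an asymptotically equal one
  have key : ∀ (m : Fin q → X) (i : Fin q) (z : X) (y : ℕ → Y),
      Tendsto (fun n => g n z - y n) U (𝓝 0) →
      Tendsto (fun n => B (Function.update (fun j => g n (m j)) i (y n))) U
        (𝓝 (L (Function.update m i z))) := by
    intro m i z y hy
    have h1 := hL (Function.update m i z)
    simp only [hupd] at h1
    have hy' : Tendsto (fun n => y n - g n z) U (𝓝 0) := by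
      have := hy.neg
      simpa using this
    obtain ⟨K1, hK1⟩ := hbd2 m i _ hy' z
    obtain ⟨K2, hK2⟩ := hbd2 m i (fun _ => 0) tendsto_const_nhds z
    simp only [add_sub_cancel, add_zero] at hK1 hK2
    have h2 : Tendsto (fun n => Function.update (fun j => g n (m j)) i (y n) -
        Function.update (fun j => g n (m j)) i (g n z)) U (𝓝 0) := by
      rw [tendsto_pi_nhds]
      intro j
      by_cases hj : j = i
      · subst hj
        simpa using hy'
      · simp only [Pi.sub_apply, Function.update_of_ne hj, sub_self, Pi.zero_apply]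
        exact tendsto_const_nhds
    have h3 := seqclose B U _ _ (K := max K1 K2)
      (hK1.mono fun n hn => hn.trans (le_max_left _ _))
      (hK2.mono fun n hn => hn.trans (le_max_right _ _)) h2
    have h4 := h3.add h1
    simpa using h4
  let M : MultilinearMap ℝ (fun _ : Fin q => X) ℝ :=
    { toFun := L
      map_update_add' := by
        intro inst m i x y
        obtain rfl : inst = instDecidableEqFin q := Subsingleton.elim _ _
        have h1 := key m i (x + y) (fun n => g n x + g n y) (hadd x y)
        have h2 := key m i x (fun n => g n x) (by simp)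
        have h3 := key m i y (fun n => g n y) (by simp)
        have h4 := h2.add h3
        have h5 : (fun n => B (Function.update (fun j => g n (m j)) i (g n x + g n y))) =
            fun n => B (Function.update (fun j => g n (m j)) i (g n x)) +
              B (Function.update (fun j => g n (m j)) i (g n y)) := by
          funext n
          exact B.map_update_add _ _ _ _
        rw [h5] at h1
        exact tendsto_nhds_unique h1 h4
      map_update_smul' := by
        intro inst m i c x
        obtain rfl : inst = instDecidableEqFin q := Subsingleton.elim _ _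
        have h1 := key m i (c • x) (fun n => c • g n x) (hsmul c x)
        have h2 := key m i x (fun n => g n x) (by simp)
        have h4 := h2.const_mul c
        have h5 : (fun n => B (Function.update (fun j => g n (m j)) i (c • g n x))) =
            fun n => c * B (Function.update (fun j => g n (m j)) i (g n x)) := by
          funext n
          exact B.map_update_smul _ _ _ _
        rw [h5] at h1
        rw [smul_eq_mul]
        exact tendsto_nhds_unique h1 h4 }
  refine ⟨M.mkContinuous ‖B‖ ?_, fun m => hL m⟩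
  intro m
  have h1 : Tendsto (fun n => |B (fun i => g n (m i))|) U (𝓝 |L m|) := (hL m).abs
  exact le_of_tendsto_of_tendsto h1 (hprod m) (Filter.Eventually.of_forall fun n => B.le_opNorm _)

end Pool.Agent.Helper15.SR
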