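import Mathlib

/-! The `q`-th root of a convex coercive `q`-homogeneous polynomial is a `C^∞` norm. -/

set_option autoImplicit false

namespace Pool.Agent.Helper15.SR

open Set Filter Topology

variable {X : Type*} [NormedAddCommGroup X] [NormedSpace ℝ X] {q : ℕ}

theorem norm_of_poly (hq : 0 < q) (heven : Even q)
    (L : ContinuousMultilinearMap ℝ (fun _ : Fin q => X) ℝ) {c : ℝ} (hc : 0 < c)
    (hlow : ∀ v : X, c * ‖v‖ ^ q ≤ L (fun _ => v))
    (hconv : ∀ (s : ℝ), 0 ≤ s → s ≤ 1 → ∀ v w : X,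
      L (fun _ => s • v + (1 - s) • w) ≤ s * L (fun _ => v) + (1 - s) * L (fun _ => w)) :
    ∃ M : X → ℝ, (∀ x y, M (x + y) ≤ M x + M y) ∧ (∀ (t : ℝ) x, M (t • x) = |t| * M x) ∧
      (∃ c C : ℝ, 0 < c ∧ ∀ x, c * ‖x‖ ≤ M x ∧ M x ≤ C * ‖x‖) ∧
      ContDiffOn ℝ ((⊤ : ℕ∞) : WithTop ℕ∞) M {x | x ≠ 0} ∧ (∀ x, 0 ≤ M x) ∧
      ∀ x, M x ^ q = L (fun _ => x) := by
  have hqR : (0 : ℝ) < q := by exact_mod_cast hq
  set Q : X → ℝ := fun v => L (fun _ => v) with hQ
  have hQ0 : ∀ v, 0 ≤ Q v := fun v => le_trans (by positivity) (hlow v)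
  have hQhom : ∀ (t : ℝ) v, Q (t • v) = t ^ q * Q v := by
    intro t v
    have := L.map_smul_univ (fun _ => t) (fun _ => v)
    simpa [hQ] using this
  have hQup : ∀ v, Q v ≤ ‖L‖ * ‖v‖ ^ q := by
    intro v
    have := L.le_opNorm (fun _ => v)
    simp only [Finset.prod_const, Finset.card_univ, Fintype.card_fin] at this
    exact (le_abs_self _).trans this
  set M : X → ℝ := fun v => Q v ^ (1 / (q : ℝ)) with hM
  have hM0 : ∀ v, 0 ≤ M v := fun v => Real.rpow_nonneg (hQ0 v) _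
  have hMq : ∀ v, M v ^ q = Q v := by
    intro v
    rw [hM]
    simp only
    rw [← Real.rpow_natCast, ← Real.rpow_mul (hQ0 v), one_div_mul_cancel hqR.ne', Real.rpow_one]
  have hMhom : ∀ (t : ℝ) v, M (t • v) = |t| * M v := by
    intro t v
    have h1 : M (t • v) ^ q = (|t| * M v) ^ q := by
      rw [hMq, hQhom, mul_pow, hMq, heven.pow_abs]
    exact (pow_left_inj₀ (hM0 _) (mul_nonneg (abs_nonneg _) (hM0 _)) hq.ne').1 h1
  have hroot : ∀ v : X, (‖v‖ ^ q) ^ (1 / (q : ℝ)) = ‖v‖ := by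
    intro v
    rw [← Real.rpow_natCast, ← Real.rpow_mul (norm_nonneg _), mul_one_div_cancel hqR.ne',
      Real.rpow_one]
  have hlowM : ∀ v : X, c ^ (1 / (q : ℝ)) * ‖v‖ ≤ M v := by
    intro v
    have h1 := Real.rpow_le_rpow (by positivity) (hlow v) (show 0 ≤ 1 / (q : ℝ) by positivity)
    rwa [Real.mul_rpow hc.le (by positivity), hroot] at h1
  have hupM : ∀ v : X, M v ≤ ‖L‖ ^ (1 / (q : ℝ)) * ‖v‖ := by
    intro v
    have h1 := Real.rpow_le_rpow (hQ0 v) (hQup v) (show 0 ≤ 1 / (q : ℝ) by positivity)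
    rwa [Real.mul_rpow (norm_nonneg _) (by positivity), hroot] at h1
  refine ⟨M, ?_, hMhom, ⟨c ^ (1 / (q : ℝ)), ‖L‖ ^ (1 / (q : ℝ)), Real.rpow_pos_of_pos hc _,
    fun x => ⟨hlowM x, hupM x⟩⟩, ?_, hM0, hMq⟩
  · intro x y
    by_cases hx : x = 0
    · have : M x = 0 := by
        have := hMhom 0 x
        rw [hx] at this ⊢
        simpa using this
      rw [this, hx, zero_add, zero_add]
    by_cases hy : y = 0
    · have : M y = 0 := by
        have := hMhom 0 y
        rw [hy] at this ⊢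
        simpa using this
      rw [this, hy, add_zero, add_zero]
    have hcp : 0 < c ^ (1 / (q : ℝ)) := Real.rpow_pos_of_pos hc _
    have hα : 0 < M x := lt_of_lt_of_le (mul_pos hcp (norm_pos_iff.2 hx)) (hlowM x)
    have hβ : 0 < M y := lt_of_lt_of_le (mul_pos hcp (norm_pos_iff.2 hy)) (hlowM y)
    set α := M x with hαd
    set β := M y with hβd
    have hs : α / (α + β) + β / (α + β) = 1 := by field_simp
    have h1 := hconv (α / (α + β)) (by positivity) (by
      rw [div_le_one (by positivity)]; linarith) (α⁻¹ • x) (β⁻¹ • y)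
    have h2 : 1 - α / (α + β) = β / (α + β) := by linarith
    rw [h2] at h1
    have h3 : (α / (α + β)) • (α⁻¹ • x) + (β / (α + β)) • (β⁻¹ • y) = (α + β)⁻¹ • (x + y) := by
      rw [smul_smul, smul_smul, smul_add]
      congr 2 <;> field_simp
    rw [h3] at h1
    have h4 : L (fun _ => (α + β)⁻¹ • (x + y)) = (α + β)⁻¹ ^ q * Q (x + y) := hQhom _ _
    have h5 : L (fun _ => α⁻¹ • x) = 1 := by
      have : L (fun _ => α⁻¹ • x) = α⁻¹ ^ q * Q x := hQhom _ _
      rw [this, ← hMq, ← mul_pow, ← hαd, inv_mul_cancel₀ hα.ne', one_pow]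
    have h6 : L (fun _ => β⁻¹ • y) = 1 := by
      have : L (fun _ => β⁻¹ • y) = β⁻¹ ^ q * Q y := hQhom _ _
      rw [this, ← hMq, ← mul_pow, ← hβd, inv_mul_cancel₀ hβ.ne', one_pow]
    rw [h4, h5, h6, mul_one, mul_one, hs] at h1
    have h7 : Q (x + y) ≤ (α + β) ^ q := by
      rw [inv_pow, inv_mul_le_iff₀ (by positivity)] at h1
      linarith
    rw [← hMq] at h7
    exact le_of_pow_le_pow_left₀ hq.ne' (by positivity) h7
  · have hQs : ContDiff ℝ ((⊤ : ℕ∞) : WithTop ℕ∞) Q := by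
      have h1 : ContDiff ℝ ((⊤ : ℕ∞) : WithTop ℕ∞) (fun m : Fin q → X => L m) := L.contDiff
      exact h1.comp (contDiff_pi.2 fun _ => contDiff_id)
    have h2 : ContDiffOn ℝ ((⊤ : ℕ∞) : WithTop ℕ∞) (fun v => Q v ^ (1 / (q : ℝ))) {x | x ≠ 0} := by
      apply hQs.contDiffOn.rpow_const_of_ne
      intro x hx
      have : 0 < c * ‖x‖ ^ q := by
        have := norm_pos_iff.2 hx
        positivity
      exact (lt_of_lt_of_le this (hlow x)).ne'
    exact h2

end Pool.Agent.Helper15.SR
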