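import Pool.Agent.Helper15.SR.Defs
import Pool.Agent.Helper15.SR.Blocks
import Pool.Agent.Helper15.SR.Limit
import Pool.Agent.Helper15.SR.NormOf

/-! If an `ℓ_p`-sum of an increasing exhausting sequence of subspaces of `X` embeds into a space with
a `C^k` norm, `k ≥ p`, then `X` has an equivalent norm whose `p`-th power is a polynomial. -/

set_option autoImplicit false

namespace Pool.Agent.Helper15.SR

open Set Filter Topology
open scoped ENNReal

variable {X Y : Type*} [NormedAddCommGroup X] [NormedSpace ℝ X] [NormedAddCommGroup Y]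
  [NormedSpace ℝ Y]

/-- approximations -/
theorem exists_approx (F : ℕ → Submodule ℝ X) (hmono : Monotone F)
    (hdense : ∀ v : X, ∀ ε > 0, ∃ n, ∃ w ∈ F n, ‖v - w‖ < ε) :
    ∃ π : ∀ n : ℕ, X → F n, ∀ v, Tendsto (fun n => ((π n v : F n) : X)) atTop (𝓝 v) := by
  have hex : ∀ (n : ℕ) (v : X), ∃ w : F n,
      ‖v - w‖ < Metric.infDist v (F n : Set X) + 1 / ((n : ℝ) + 1) := by
    intro n v
    have h1 : Metric.infDist v (F n : Set X) < Metric.infDist v (F n : Set X) + 1 / ((n : ℝ) + 1) := by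
      have : (0 : ℝ) < 1 / ((n : ℝ) + 1) := by positivity
      linarith
    obtain ⟨w, hw, hd⟩ := (Metric.infDist_lt_iff ⟨0, (F n).zero_mem⟩).1 h1
    exact ⟨⟨w, hw⟩, by rwa [dist_eq_norm] at hd⟩
  choose π hπ using hex
  refine ⟨π, fun v => ?_⟩
  rw [Metric.tendsto_atTop]
  intro ε hε
  obtain ⟨m, w, hw, hwε⟩ := hdense v (ε / 2) (by positivity)
  obtain ⟨m', hm'⟩ := exists_nat_one_div_lt (show (0 : ℝ) < ε / 2 by positivity)
  refine ⟨max m m', fun n hn => ?_⟩
  rw [dist_comm, dist_eq_norm]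
  refine (hπ n v).trans ?_
  have h1 : Metric.infDist v (F n : Set X) ≤ ‖v - w‖ := by
    rw [← dist_eq_norm]
    exact Metric.infDist_le_dist_of_mem (hmono ((le_max_left _ _).trans hn) hw)
  have h2 : 1 / ((n : ℝ) + 1) ≤ 1 / ((m' : ℝ) + 1) := by
    apply one_div_le_one_div_of_le (by positivity)
    have : (m' : ℝ) ≤ n := by exact_mod_cast (le_max_right _ _).trans hn
    linarith
  linarith

theorem embed {p : ℝ≥0∞} [Fact (1 ≤ p)] (hp : p ≠ ∞) (F : ℕ → Submodule ℝ X) (hmono : Monotone F)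
    (hdense : ∀ v : X, ∀ ε > 0, ∃ n, ∃ w ∈ F n, ‖v - w‖ < ε) (hne : ∃ v : X, v ≠ 0)
    (T : lp (fun n => F n) p →L[ℝ] Y) {κ : ℝ} (hκ : 0 < κ) (hT : ∀ x, κ * ‖x‖ ≤ ‖T x‖)
    (k : ℕ) (hk : p.toReal ≤ k) (N : Y → ℝ) (hN : SmoothNorm (k : WithTop ℕ∞) N) :
    ∃ q : ℕ, p.toReal = q ∧ Even q ∧ ∃ (L : ContinuousMultilinearMap ℝ (fun _ : Fin q => X) ℝ)
      (M : X → ℝ), SmoothNorm ((⊤ : ℕ∞) : WithTop ℕ∞) M ∧ (∀ x, 0 ≤ M x) ∧
      ∀ x, M x ^ q = L (fun _ => x) := by
  have hp0' : 0 < p := zero_lt_one.trans_le Fact.out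
  have hp0 : 0 < p.toReal := ENNReal.toReal_pos hp0'.ne' hp
  obtain ⟨hadd, hsmul, ⟨a, b, ha, hab⟩, hsm⟩ := hN
  set N' : lp (fun n => F n) p → ℝ := fun x => N (T x) with hN'
  have hadd' : ∀ x y, N' (x + y) ≤ N' x + N' y := by
    intro x y
    simp only [hN', map_add]
    exact hadd _ _
  have hsmul' : ∀ (t : ℝ) x, N' (t • x) = |t| * N' x := by
    intro t x
    simp only [hN', map_smul]
    exact hsmul _ _
  have hNa : ∀ x, (a * κ) * ‖x‖ ≤ N' x := by
    intro x
    calc (a * κ) * ‖x‖ = a * (κ * ‖x‖) := by ring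
      _ ≤ a * ‖T x‖ := mul_le_mul_of_nonneg_left (hT x) ha.le
      _ ≤ N' x := (hab _).1
  have hb0 : ∀ y : Y, N y ≤ |b| * ‖y‖ := fun y =>
    (hab y).2.trans (mul_le_mul_of_nonneg_right (le_abs_self b) (norm_nonneg _))
  have hNb : ∀ x, N' x ≤ (|b| * ‖T‖) * ‖x‖ := by
    intro x
    calc N' x ≤ |b| * ‖T x‖ := hb0 _
      _ ≤ |b| * (‖T‖ * ‖x‖) := mul_le_mul_of_nonneg_left (T.le_opNorm x) (abs_nonneg _)
      _ = _ := by ring
  have hT0 : ∀ x, x ≠ 0 → T x ≠ 0 := by
    intro x hx h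
    have h1 := hT x
    rw [h, norm_zero] at h1
    have h2 := mul_pos hκ (norm_pos_iff.2 hx)
    linarith
  have hsm' : ContDiffOn ℝ (k : WithTop ℕ∞) N' {x | x ≠ 0} :=
    hsm.comp T.contDiff.contDiffOn (fun x hx => hT0 x hx)
  have hinf : ∀ m : ℕ, ∃ n ≥ m, ∃ v : F n, v ≠ 0 := by
    intro m
    obtain ⟨v, hv⟩ := hne
    obtain ⟨n, w, hw, hwv⟩ := hdense v ‖v‖ (norm_pos_iff.2 hv)
    have hw0 : w ≠ 0 := by
      rintro rfl
      rw [sub_zero] at hwv
      exact lt_irrefl _ hwv
    refine ⟨max n m, le_max_right _ _, ⟨w, hmono (le_max_left _ _) hw⟩, ?_⟩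
    intro h
    exact hw0 (congrArg Subtype.val h)
  obtain ⟨q, hpq, heven, x₀, hx₀, ⟨c, hc, n₁, hlow⟩, hconv⟩ :=
    blocks hp N' hadd' hsmul' (mul_pos ha hκ) hNa hNb k hk hsm' hinf
  have hq0 : 0 < q := by
    have : (0 : ℝ) < q := by rw [← hpq]; exact hp0
    exact_mod_cast this
  obtain ⟨π, hπ⟩ := exists_approx F hmono hdense
  set g : ℕ → X → lp (fun n => F n) p := fun n v => lp.single p n (π n v) with hg
  have hgn : ∀ n v, ‖g n v‖ = ‖((π n v : F n) : X)‖ := by
    intro n v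
    rw [hg]
    simp only
    rw [lp.norm_single hp0', Submodule.coe_norm]
  set U : Ultrafilter ℕ := hyperfilter ℕ with hU
  have hUle : (U : Filter ℕ) ≤ atTop := Nat.hyperfilter_le_atTop
  have hgadd : ∀ v w, Tendsto (fun n => g n (v + w) - (g n v + g n w)) U (𝓝 0) := by
    intro v w
    rw [tendsto_zero_iff_norm_tendsto_zero]
    have h1 : ∀ n, ‖g n (v + w) - (g n v + g n w)‖ =
        ‖((π n (v + w) : F n) : X) - ((π n v : F n) + (π n w : F n))‖ := by
      intro n
      rw [hg]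
      simp only
      rw [← lp.single_add, ← lp.single_sub, lp.norm_single hp0', Submodule.coe_norm]
      simp
    simp only [h1]
    have h2 : Tendsto (fun n => ((π n (v + w) : F n) : X) - ((π n v : F n) + (π n w : F n))) atTop
        (𝓝 ((v + w) - (v + w))) := (hπ (v + w)).sub ((hπ v).add (hπ w))
    rw [sub_self] at h2
    exact (tendsto_zero_iff_norm_tendsto_zero.1 h2).mono_left hUle
  have hgsmul : ∀ (t : ℝ) v, Tendsto (fun n => g n (t • v) - t • g n v) U (𝓝 0) := by
    intro t v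
    rw [tendsto_zero_iff_norm_tendsto_zero]
    have h1 : ∀ n, ‖g n (t • v) - t • g n v‖ =
        ‖((π n (t • v) : F n) : X) - t • ((π n v : F n) : X)‖ := by
      intro n
      rw [hg]
      simp only
      rw [← lp.single_smul, ← lp.single_sub, lp.norm_single hp0', Submodule.coe_norm]
      simp
    simp only [h1]
    have h2 : Tendsto (fun n => ((π n (t • v) : F n) : X) - t • ((π n v : F n) : X)) atTop
        (𝓝 (t • v - t • v)) := (hπ (t • v)).sub ((hπ v).const_smul t)
    rw [sub_self] at h2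
    exact (tendsto_zero_iff_norm_tendsto_zero.1 h2).mono_left hUle
  have hgnorm : ∀ v, Tendsto (fun n => ‖g n v‖) U (𝓝 ‖v‖) := by
    intro v
    simp only [hgn]
    exact ((hπ v).norm).mono_left hUle
  set B : ContinuousMultilinearMap ℝ (fun _ : Fin q => lp (fun n => F n) p) ℝ :=
    ((q.factorial : ℝ)⁻¹) • iteratedFDeriv ℝ q N' x₀ with hB
  have hBP : ∀ n (w : F n), B (fun _ => lp.single p n w) = blockPoly N' x₀ q n w := by
    intro n w
    rw [hB]
    unfold blockPoly
    simp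
  obtain ⟨L, hL⟩ := multilim B U g hgadd hgsmul hgnorm
  have hLv : ∀ v, Tendsto (fun n => blockPoly N' x₀ q n (π n v)) U (𝓝 (L (fun _ => v))) := by
    intro v
    have := hL (fun _ => v)
    simp only [hg, hBP] at this
    exact this
  have hLhom : ∀ (t : ℝ) v, L (fun _ => t • v) = t ^ q * L (fun _ => v) := by
    intro t v
    have := L.map_smul_univ (fun _ => t) (fun _ => v)
    simpa using this
  have hLlow : ∀ v : X, c * ‖v‖ ^ q ≤ L (fun _ => v) := by
    intro v
    have h1 : Tendsto (fun n => c * ‖g n v‖ ^ q) U (𝓝 (c * ‖v‖ ^ q)) :=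
      ((hgnorm v).pow q).const_mul c
    refine le_of_tendsto_of_tendsto h1 (hLv v) ?_
    filter_upwards [hUle (eventually_ge_atTop n₁)] with n hn
    have := hlow n hn (π n v)
    rwa [hgn, ← Submodule.coe_norm] 
  have hLconv1 : ∀ (s : ℝ), 0 ≤ s → s ≤ 1 → ∀ v w : X, ‖v‖ < 1 → ‖w‖ < 1 →
      L (fun _ => s • v + (1 - s) • w) ≤ s * L (fun _ => v) + (1 - s) * L (fun _ => w) := by
    intro s hs0 hs1 v w hv hw
    refine le_of_forall_pos_le_add fun ε hε => ?_
    obtain ⟨n₂, hn₂⟩ := hconv ε hε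
    -- the limit of the combination
    have hd : Tendsto (fun n => (s • g n v + (1 - s) • g n w) - g n (s • v + (1 - s) • w)) U
        (𝓝 0) := by
      have h1 := hgadd (s • v) ((1 - s) • w)
      have h2 := hgsmul s v
      have h3 := hgsmul (1 - s) w
      have h4 := (h1.add h2).add h3
      have h5 := h4.neg
      simp only [add_zero, neg_zero] at h5
      refine h5.congr fun n => ?_
      abel
    have hlim : Tendsto (fun n => B (fun _ => s • g n v + (1 - s) • g n w)) U
        (𝓝 (L (fun _ => s • v + (1 - s) • w))) := by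
      have hz := hL (fun _ => s • v + (1 - s) • w)
      have hzn := hgnorm (s • v + (1 - s) • w)
      have hb1 : ∀ᶠ n in (U : Filter ℕ), ‖g n (s • v + (1 - s) • w)‖ ≤ ‖s • v + (1 - s) • w‖ + 1 :=
        hzn.eventually_le_const (by linarith)
      have hb2 : ∀ᶠ n in (U : Filter ℕ), ‖(s • g n v + (1 - s) • g n w) -
          g n (s • v + (1 - s) • w)‖ ≤ 1 :=
        (tendsto_zero_iff_norm_tendsto_zero.1 hd).eventually_le_const one_pos
      have hK : 0 ≤ ‖s • v + (1 - s) • w‖ + 2 := by positivity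
      have h1 := seqclose B U (fun n _ => s • g n v + (1 - s) • g n w)
        (fun n _ => g n (s • v + (1 - s) • w)) (K := ‖s • v + (1 - s) • w‖ + 2) ?_ ?_ ?_
      · have h2 := h1.add hz
        simpa using h2
      · filter_upwards [hb1, hb2] with n h1 h2
        rw [pi_norm_le_iff_of_nonneg hK]
        intro _
        have h3 : s • g n v + (1 - s) • g n w = (s • g n v + (1 - s) • g n w -
          g n (s • v + (1 - s) • w)) + g n (s • v + (1 - s) • w) := by abel
        rw [h3]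
        exact (norm_add_le _ _).trans (by linarith)
      · filter_upwards [hb1] with n h1
        rw [pi_norm_le_iff_of_nonneg hK]
        intro _
        linarith
      · rw [tendsto_pi_nhds]
        intro _
        simpa using hd
    have hlim2 : Tendsto (fun n => s * blockPoly N' x₀ q n (π n v) +
        (1 - s) * blockPoly N' x₀ q n (π n w) + ε) U
        (𝓝 (s * L (fun _ => v) + (1 - s) * L (fun _ => w) + ε)) :=
      (((hLv v).const_mul s).add ((hLv w).const_mul (1 - s))).add_const ε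
    refine le_of_tendsto_of_tendsto hlim hlim2 ?_
    filter_upwards [hUle (eventually_ge_atTop n₂), (hgnorm v).eventually_le_const hv,
      (hgnorm w).eventually_le_const hw] with n hn hvn hwn
    rw [hgn, ← Submodule.coe_norm] at hvn hwn
    have h1 := hn₂ n hn s hs0 hs1 (π n v) (π n w) hvn hwn
    have h2 : (fun _ : Fin q => s • g n v + (1 - s) • g n w) =
        fun _ => lp.single p n (s • π n v + (1 - s) • π n w) := by
      funext _
      rw [hg]
      simp only
      rw [lp.single_add, lp.single_smul, lp.single_smul]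
    rw [h2, hBP]
    exact h1
  have hLconv : ∀ (s : ℝ), 0 ≤ s → s ≤ 1 → ∀ v w : X,
      L (fun _ => s • v + (1 - s) • w) ≤ s * L (fun _ => v) + (1 - s) * L (fun _ => w) := by
    intro s hs0 hs1 v w
    set R : ℝ := ‖v‖ + ‖w‖ + 1 with hR
    have hR0 : 0 < R := by positivity
    have hv : ‖R⁻¹ • v‖ < 1 := by
      rw [norm_smul, norm_inv, Real.norm_eq_abs, abs_of_pos hR0, inv_mul_lt_one₀ hR0]
      have := norm_nonneg w
      linarith
    have hw : ‖R⁻¹ • w‖ < 1 := by
      rw [norm_smul, norm_inv, Real.norm_eq_abs, abs_of_pos hR0, inv_mul_lt_one₀ hR0]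
      have := norm_nonneg v
      linarith
    have h1 := hLconv1 s hs0 hs1 _ _ hv hw
    have h2 : s • R⁻¹ • v + (1 - s) • R⁻¹ • w = R⁻¹ • (s • v + (1 - s) • w) := by module
    rw [h2, hLhom, hLhom, hLhom] at h1
    have h3 : 0 < R⁻¹ ^ q := by positivity
    have h4 : R⁻¹ ^ q * L (fun _ => s • v + (1 - s) • w) ≤
        R⁻¹ ^ q * (s * L (fun _ => v) + (1 - s) * L (fun _ => w)) := by linarith
    exact le_of_mul_le_mul_left h4 h3
  obtain ⟨M, hM1, hM2, hM3, hM4, hM5, hM6⟩ := norm_of_poly hq0 heven L hc hLlow hLconv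
  exact ⟨q, hpq, heven, L, M, ⟨hM1, hM2, hM3, hM4⟩, hM5, hM6⟩

end Pool.Agent.Helper15.SR
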