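import Mathlib

/-! Reindexing: `ℓ_p`-sums of coordinatewise restricted subspaces of an `ℓ_p`-sum `X` embed into `X`
if the pieces embed uniformly into infinitely many blocks. -/

set_option autoImplicit false

namespace Pool.Agent.Helper15.SR

open Set Filter Topology
open scoped ENNReal

section

variable {E : ℕ → Type*} [∀ n, NormedAddCommGroup (E n)]

/-- extension by zero along `σ` of a family of vectors -/
noncomputable def extz {ι : Type*} (σ : ι → ℕ) (y : ∀ c, E (σ c)) (j : ℕ) : E j :=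
  open Classical in if h : ∃ c, σ c = j then h.choose_spec ▸ y h.choose else 0

theorem extz_apply {ι : Type*} {σ : ι → ℕ} (hσ : Function.Injective σ) (y : ∀ c, E (σ c)) (c : ι) :
    extz σ y (σ c) = y c := by
  have h : ∃ c', σ c' = σ c := ⟨c, rfl⟩
  unfold extz
  rw [dif_pos h]
  have key : ∀ (c' : ι) (e : σ c' = σ c), c' = c → (e ▸ y c' : E (σ c)) = y c := by
    intro c' e hc
    subst hc
    rfl
  exact key _ _ (hσ h.choose_spec)

theorem extz_zero {ι : Type*} {σ : ι → ℕ} (y : ∀ c, E (σ c)) {j : ℕ} (hj : j ∉ range σ) :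
    extz σ y j = 0 := by
  unfold extz
  rw [dif_neg]
  rintro ⟨c, hc⟩
  exact hj ⟨c, hc⟩

end

variable {E : ℕ → Type*} [∀ n, NormedAddCommGroup (E n)] [∀ n, NormedSpace ℝ (E n)]
  {p : ℝ≥0∞}

/-- the vectors of the `ℓ_p`-sum with `i`-th coordinate in `H i` -/
def coordSub [Fact (1 ≤ p)] (H : ∀ i, Submodule ℝ (E i)) : Submodule ℝ (lp E p) where
  carrier := {x | ∀ i, x i ∈ H i}
  add_mem' := by
    intro x y hx hy i
    rw [lp.coeFn_add]
    exact (H i).add_mem (hx i) (hy i)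
  zero_mem' := by
    intro i
    rw [lp.coeFn_zero]
    exact (H i).zero_mem
  smul_mem' := by
    intro t x hx i
    rw [lp.coeFn_smul]
    exact (H i).smul_mem t (hx i)

theorem reindex [Fact (1 ≤ p)] (hp : p ≠ ∞) (H : ℕ → ∀ i, Submodule ℝ (E i))
    {κ K : ℝ} (hκ : 0 < κ) (hK : 0 < K)
    (hrec : ∀ n i, ∃ᶠ j in atTop, ∃ J : H n i →L[ℝ] E j,
      ∀ v, κ * ‖v‖ ≤ ‖J v‖ ∧ ‖J v‖ ≤ K * ‖v‖) :
    ∃ T : lp (fun n : ℕ => (coordSub (p := p) (H n) : Submodule ℝ (lp E p))) p →L[ℝ] lp E p,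
      ∀ x, κ * ‖x‖ ≤ ‖T x‖ := by
  have hp0' : 0 < p := zero_lt_one.trans_le Fact.out
  have hp0 : 0 < p.toReal := ENNReal.toReal_pos hp0'.ne' hp
  obtain ⟨φ, hφ, hφJ⟩ := Filter.extraction_forall_of_frequently
    (P := fun c j => ∀ n i, Nat.unpair c = (n, i) → ∃ J : H n i →L[ℝ] E j,
      ∀ v, κ * ‖v‖ ≤ ‖J v‖ ∧ ‖J v‖ ≤ K * ‖v‖) (fun c =>
        (hrec (Nat.unpair c).1 (Nat.unpair c).2).mono (by
        intro j hj n i hni
        rw [hni] at hj
        exact hj))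
  set σ : ℕ × ℕ → ℕ := fun c => φ (Nat.pair c.1 c.2) with hσ
  have hσi : Function.Injective σ := by
    intro c d hcd
    have h1 := hφ.injective hcd
    rw [Nat.pair_eq_pair] at h1
    exact Prod.ext h1.1 h1.2
  have hJ : ∀ c : ℕ × ℕ, ∃ J : H c.1 c.2 →L[ℝ] E (σ c),
      ∀ v, κ * ‖v‖ ≤ ‖J v‖ ∧ ‖J v‖ ≤ K * ‖v‖ :=
    fun c => hφJ (Nat.pair c.1 c.2) c.1 c.2 (by rw [Nat.unpair_pair])
  choose J hJ1 using hJ
  set P : ℝ := p.toReal with hP
  let G := lp (fun n : ℕ => (coordSub (p := p) (H n) : Submodule ℝ (lp E p))) p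
  set y : G → ∀ c : ℕ × ℕ, E (σ c) := fun x c =>
    J c ⟨((x c.1 : lp E p) : ∀ i, E i) c.2, (x c.1).2 c.2⟩ with hy
  -- the double sum
  have hinner : ∀ (x : G) (n : ℕ), HasSum (fun i => ‖((x n : lp E p) : ∀ i, E i) i‖ ^ P)
      (‖(x n : lp E p)‖ ^ P) := fun x n => lp.hasSum_norm hp0 (x n : lp E p)
  have houter : ∀ x : G, HasSum (fun n => ‖(x n : lp E p)‖ ^ P) (‖x‖ ^ P) := by
    intro x
    exact lp.hasSum_norm hp0 x
  have hdouble : ∀ x : G, HasSum (fun c : ℕ × ℕ => ‖((x c.1 : lp E p) : ∀ i, E i) c.2‖ ^ P)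
      (‖x‖ ^ P) := by
    intro x
    have hs : Summable (fun c : ℕ × ℕ => ‖((x c.1 : lp E p) : ∀ i, E i) c.2‖ ^ P) := by
      rw [summable_prod_of_nonneg (fun c => by positivity)]
      refine ⟨fun n => (hinner x n).summable, ?_⟩
      refine (houter x).summable.congr fun n => ?_
      exact (hinner x n).tsum_eq.symm
    have ht : ∑' c : ℕ × ℕ, ‖((x c.1 : lp E p) : ∀ i, E i) c.2‖ ^ P = ‖x‖ ^ P := by
      rw [hs.tsum_prod, ← (houter x).tsum_eq]
      exact tsum_congr fun n => (hinner x n).tsum_eq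
    rw [← ht]
    exact hs.hasSum
  have hyle : ∀ (x : G) (c : ℕ × ℕ), ‖y x c‖ ^ P ≤ K ^ P * ‖((x c.1 : lp E p) : ∀ i, E i) c.2‖ ^ P := by
    intro x c
    rw [← Real.mul_rpow hK.le (norm_nonneg _)]
    exact Real.rpow_le_rpow (norm_nonneg _) (hJ1 c _).2 hp0.le
  have hyge : ∀ (x : G) (c : ℕ × ℕ), κ ^ P * ‖((x c.1 : lp E p) : ∀ i, E i) c.2‖ ^ P ≤ ‖y x c‖ ^ P := by
    intro x c
    rw [← Real.mul_rpow hκ.le (norm_nonneg _)]
    exact Real.rpow_le_rpow (by positivity) (hJ1 c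
      ⟨((x c.1 : lp E p) : ∀ i, E i) c.2, (x c.1).2 c.2⟩).1 hp0.le
  have hysum : ∀ x : G, Summable (fun c => ‖y x c‖ ^ P) := fun x =>
    Summable.of_nonneg_of_le (fun c => by positivity) (hyle x) ((hdouble x).summable.mul_left _)
  have hsupp : ∀ (x : G) (j : ℕ), j ∉ range σ → ‖extz σ (y x) j‖ ^ P = 0 := by
    intro x j hj
    rw [extz_zero _ hj, norm_zero, Real.zero_rpow hp0.ne']
  have hcomp : ∀ x : G, (fun j => ‖extz σ (y x) j‖ ^ P) ∘ σ = fun c => ‖y x c‖ ^ P := by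
    intro x
    funext c
    simp only [Function.comp_apply, extz_apply hσi]
  have hesum : ∀ x : G, Summable (fun j => ‖extz σ (y x) j‖ ^ P) := by
    intro x
    rw [← hσi.summable_iff (hsupp x), hcomp]
    exact hysum x
  have htsum : ∀ x : G, ∑' j, ‖extz σ (y x) j‖ ^ P = ∑' c, ‖y x c‖ ^ P := by
    intro x
    have h1 := hσi.tsum_eq (f := fun j => ‖extz σ (y x) j‖ ^ P) (by
      intro j hj
      by_contra hcon
      exact hj (hsupp x j hcon))
    rw [← h1]
    exact tsum_congr fun c => congrFun (hcomp x) c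
  have hadd : ∀ x x' : G, y (x + x') = y x + y x' := by
    intro x x'
    funext c
    exact (J c).map_add ⟨((x c.1 : lp E p) : ∀ i, E i) c.2, (x c.1).2 c.2⟩
      ⟨((x' c.1 : lp E p) : ∀ i, E i) c.2, (x' c.1).2 c.2⟩
  have hsmul : ∀ (t : ℝ) (x : G), y (t • x) = t • y x := by
    intro t x
    funext c
    exact (J c).map_smul t ⟨((x c.1 : lp E p) : ∀ i, E i) c.2, (x c.1).2 c.2⟩
  let T0 : G →ₗ[ℝ] lp E p :=
    { toFun := fun x => ⟨extz σ (y x), memℓp_gen (hesum x)⟩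
      map_add' := by
        intro x x'
        ext j
        simp only [lp.coeFn_add, Pi.add_apply]
        by_cases hj : j ∈ range σ
        · obtain ⟨c, rfl⟩ := hj
          rw [extz_apply hσi, extz_apply hσi, extz_apply hσi, hadd]
          rfl
        · rw [extz_zero _ hj, extz_zero _ hj, extz_zero _ hj, add_zero]
      map_smul' := by
        intro t x
        ext j
        simp only [RingHom.id_apply, lp.coeFn_smul, Pi.smul_apply]
        by_cases hj : j ∈ range σ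
        · obtain ⟨c, rfl⟩ := hj
          rw [extz_apply hσi, extz_apply hσi, hsmul]
          rfl
        · rw [extz_zero _ hj, extz_zero _ hj, smul_zero] }
  have hT0 : ∀ x : G, ‖T0 x‖ ^ P = ∑' c, ‖y x c‖ ^ P := by
    intro x
    rw [← htsum, lp.norm_rpow_eq_tsum hp0]
    rfl
  have hup : ∀ x : G, ‖T0 x‖ ≤ K * ‖x‖ := by
    intro x
    rw [← Real.rpow_le_rpow_iff (norm_nonneg _) (by positivity) hp0, hT0,
      Real.mul_rpow hK.le (norm_nonneg _), ← (hdouble x).tsum_eq, ← tsum_mul_left]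
    exact (hysum x).tsum_le_tsum (hyle x) ((hdouble x).summable.mul_left _)
  have hlow : ∀ x : G, κ * ‖x‖ ≤ ‖T0 x‖ := by
    intro x
    rw [← Real.rpow_le_rpow_iff (by positivity) (norm_nonneg _) hp0, hT0,
      Real.mul_rpow hκ.le (norm_nonneg _), ← (hdouble x).tsum_eq, ← tsum_mul_left]
    exact ((hdouble x).summable.mul_left _).tsum_le_tsum (hyge x) (hysum x)
  exact ⟨T0.mkContinuous K hup, hlow⟩

end Pool.Agent.Helper15.SR
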