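import Pool.Agent.Helper15.SR.Embed
import Pool.Agent.Helper15.SR.Reindex

/-! Smooth norms on `ℓ_p`-sums whose blocks are crudely finitely represented in the tails. -/

set_option autoImplicit false

namespace Pool.Agent.Helper15.SR

open Set Filter Topology
open scoped ENNReal

variable {E : ℕ → Type*} [∀ n, NormedAddCommGroup (E n)] [∀ n, NormedSpace ℝ (E n)]
  {p : ℝ≥0∞}

theorem sums [Fact (1 ≤ p)] (hp : p ≠ ∞) (G : ∀ i, ℕ → Submodule ℝ (E i))
    (hGm : ∀ i, Monotone (G i)) (hGd : ∀ i (v : E i), ∀ ε > 0, ∃ m, ∃ w ∈ G i m, ‖v - w‖ < ε)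
    {κ K : ℝ} (hκ : 0 < κ)
    (hrec : ∀ i m, ∃ᶠ j in atTop, ∃ J : G i m →L[ℝ] E j, ∀ v, κ * ‖v‖ ≤ ‖J v‖ ∧ ‖J v‖ ≤ K * ‖v‖)
    (hne : ∃ x : lp E p, x ≠ 0) (k : ℕ) (hk : p.toReal ≤ k) (N : lp E p → ℝ)
    (hN : SmoothNorm (k : WithTop ℕ∞) N) :
    ∃ q : ℕ, p.toReal = q ∧ Even q ∧ ∃ (L : ContinuousMultilinearMap ℝ (fun _ : Fin q => lp E p) ℝ)
      (M : lp E p → ℝ), SmoothNorm ((⊤ : ℕ∞) : WithTop ℕ∞) M ∧ (∀ x, 0 ≤ M x) ∧
      ∀ x, M x ^ q = L (fun _ => x) := by
  classical
  have hp0' : 0 < p := zero_lt_one.trans_le Fact.out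
  have hp0 : 0 < p.toReal := ENNReal.toReal_pos hp0'.ne' hp
  set H : ℕ → ∀ i, Submodule ℝ (E i) := fun n i => if i < n then G i n else ⊥ with hH
  have hHrec : ∀ n i, ∃ᶠ j in atTop, ∃ J : H n i →L[ℝ] E j,
      ∀ v, κ * ‖v‖ ≤ ‖J v‖ ∧ ‖J v‖ ≤ max K 1 * ‖v‖ := by
    intro n i
    by_cases hi : i < n
    · have h1 : H n i = G i n := by simp [hH, hi]
      rw [h1]
      refine (hrec i n).mono ?_
      rintro j ⟨J, hJ⟩
      exact ⟨J, fun v => ⟨(hJ v).1, (hJ v).2.trans
        (mul_le_mul_of_nonneg_right (le_max_left _ _) (norm_nonneg _))⟩⟩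
    · have h1 : H n i = ⊥ := by simp [hH, hi]
      rw [h1]
      refine (Filter.Eventually.of_forall fun j => ?_).frequently
      refine ⟨0, fun v => ?_⟩
      have : v = 0 := Subsingleton.elim _ _
      subst this
      simp
  obtain ⟨T, hT⟩ := reindex hp H hκ (show 0 < max K 1 by positivity) hHrec
  refine embed hp (fun n => coordSub (p := p) (H n)) ?_ ?_ hne T hκ hT k hk N hN
  · -- monotone
    intro n m hnm x hx i
    have h1 : x i ∈ H n i := hx i
    show x i ∈ H m i
    by_cases hi : i < n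
    · have h2 : H n i = G i n := by simp [hH, hi]
      have h3 : H m i = G i m := by
        have : i < m := lt_of_lt_of_le hi hnm
        simp [hH, this]
      rw [h2] at h1
      rw [h3]
      exact hGm i hnm h1
    · have h2 : H n i = ⊥ := by simp [hH, hi]
      rw [h2, Submodule.mem_bot] at h1
      rw [h1]
      exact (H m i).zero_mem
  · -- dense
    intro v ε hε
    have h1 := (lp.hasSum_single hp v).tendsto_sum_nat
    have h2 : ∀ᶠ m in atTop, ‖v - ∑ i ∈ Finset.range m, lp.single p i (v i)‖ < ε / 2 := by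
      have h3 := Metric.tendsto_nhds.1 h1 (ε / 2) (by positivity)
      filter_upwards [h3] with m hm
      rw [dist_comm, dist_eq_norm] at hm
      exact hm
    obtain ⟨m, hm⟩ := h2.exists
    choose a w hw hwd using fun i => hGd i (v i) (ε / (2 * ((m : ℝ) + 1))) (by positivity)
    set n : ℕ := max m ((Finset.range m).sup a) with hn
    refine ⟨n, ∑ i ∈ Finset.range m, lp.single p i (w i), ?_, ?_⟩
    · refine Submodule.sum_mem _ fun i hi => ?_
      intro j
      show (lp.single p i (w i)) j ∈ H n j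
      by_cases hj : j = i
      · subst hj
        rw [lp.single_apply_self]
        have hjm : j < m := Finset.mem_range.1 hi
        have h3 : H n j = G j n := by
          have : j < n := lt_of_lt_of_le hjm (le_max_left _ _)
          simp [hH, this]
        rw [h3]
        exact hGm j ((Finset.le_sup (f := a) hi).trans (le_max_right _ _)) (hw j)
      · rw [lp.single_apply_ne _ _ _ hj]
        exact (H n j).zero_mem
    · have h3 : v - ∑ i ∈ Finset.range m, lp.single p i (w i) =
          (v - ∑ i ∈ Finset.range m, lp.single p i (v i)) +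
            ∑ i ∈ Finset.range m, lp.single p i (v i - w i) := by
        simp only [lp.single_sub, Finset.sum_sub_distrib]
        abel
      rw [h3]
      refine (norm_add_le _ _).trans_lt ?_
      have h4 : ‖∑ i ∈ Finset.range m, lp.single p i (v i - w i)‖ ≤ ε / 2 := by
        refine (norm_sum_le _ _).trans ?_
        calc ∑ i ∈ Finset.range m, ‖lp.single p i (v i - w i)‖
            ≤ ∑ i ∈ Finset.range m, ε / (2 * ((m : ℝ) + 1)) := by
              refine Finset.sum_le_sum fun i _ => ?_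
              rw [lp.norm_single hp0']
              exact (hwd i).le
          _ = (m : ℝ) * (ε / (2 * ((m : ℝ) + 1))) := by
              rw [Finset.sum_const, Finset.card_range, nsmul_eq_mul]
          _ ≤ ε / 2 := by
              rw [mul_div_assoc', div_le_div_iff₀ (by positivity) (by positivity)]
              nlinarith
      linarith

/-- the separable case: finite-dimensional subspaces of the blocks embed into infinitely many
blocks -/
theorem sums_sep [Fact (1 ≤ p)] (hp : p ≠ ∞) [∀ i, TopologicalSpace.SeparableSpace (E i)]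
    {κ K : ℝ} (hκ : 0 < κ)
    (hrec : ∀ i (G : Submodule ℝ (E i)), FiniteDimensional ℝ G →
      ∃ᶠ j in atTop, ∃ J : G →L[ℝ] E j, ∀ v, κ * ‖v‖ ≤ ‖J v‖ ∧ ‖J v‖ ≤ K * ‖v‖)
    (hne : ∃ x : lp E p, x ≠ 0) (k : ℕ) (hk : p.toReal ≤ k) (N : lp E p → ℝ)
    (hN : SmoothNorm (k : WithTop ℕ∞) N) :
    ∃ q : ℕ, p.toReal = q ∧ Even q ∧ ∃ (L : ContinuousMultilinearMap ℝ (fun _ : Fin q => lp E p) ℝ)
      (M : lp E p → ℝ), SmoothNorm ((⊤ : ℕ∞) : WithTop ℕ∞) M ∧ (∀ x, 0 ≤ M x) ∧
      ∀ x, M x ^ q = L (fun _ => x) := by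
  refine sums (K := K) hp (fun i m => Submodule.span ℝ (TopologicalSpace.denseSeq (E i) '' {l | l < m}))
    ?_ ?_ hκ ?_ hne k hk N hN
  · intro i m m' hmm'
    exact Submodule.span_mono (image_mono fun l hl => lt_of_lt_of_le hl hmm')
  · intro i v ε hε
    obtain ⟨l, hl⟩ := (TopologicalSpace.denseRange_denseSeq (E i)).exists_dist_lt v hε
    refine ⟨l + 1, TopologicalSpace.denseSeq (E i) l, ?_, ?_⟩
    · exact Submodule.subset_span ⟨l, Nat.lt_succ_self l, rfl⟩
    · rwa [dist_eq_norm] at hl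
  · intro i m
    exact hrec i _ (FiniteDimensional.span_of_finite ℝ ((Set.finite_lt_nat m).image _))

end Pool.Agent.Helper15.SR
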